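import Pool.Agent.T44.GL.Gn
import Pool.Agent.Y113.GG.Main

/-!
# Relations at all tuples in windows near a degenerate fibre hold on the orbits of the Galois group
-/

set_option autoImplicit false
set_option linter.unusedSectionVars false

open PowerSeries

namespace Pool.Agent.T44.GL

open Pool.Agent.Y113 (ps SDc ev)
open Pool.Agent.Y120.GF Pool.Agent.Y120.GH Pool.Agent.Y124.TL Pool.Agent.Y119.HZ Pool.Agent.T44.GF Pool.Agent.T44.EF
open Pool.Agent.Y123.ST (PK PK_C PK_X PK_coeff)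
open Pool.Agent.Y123.GN (EG)
open Pool.Agent.Y119.HY (E Ep Ep_eval E_add E_zero E_mul_neg)

variable {n k : ℕ}

/-- the rational value -/
noncomputable def qv (P : Polynomial ℤ) (m : ℕ) : ℚ := (P.map (Int.castRingHom ℚ)).eval (1 / (m : ℚ))

/-- monomials in terms of a basis -/
theorem rel_mono {D0 : ℕ} {B : Finset (Fin ((n * n + 1) * D0) → Option (Fin (n * n)))} {a : Polynomial ℤ}
    {M : (Fin ((n * n + 1) * D0) → Option (Fin (n * n))) → B → Polynomial ℤ} {m : ℕ} (ha : qv a m ≠ 0)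
    (z : Option (Fin n × Fin n) → ℂ)
    (hz : ∀ b, (qv a m : ℂ) * yw (zh z) b = ∑ β, (qv (M b β) m : ℂ) * yw (zh z) β.1)
    (s : Option (Fin n × Fin n) → ℕ) (hs : ∑ v, s v ≤ D0) :
    ∏ v, z v ^ s v = ∑ x : B × Fin ((n * n + 1) * D0 + 1),
      (((if (x.2 : ℕ) = s none then qv (M (wo D0 s) x.1) m / qv a m else 0 : ℚ)) : ℂ) *
        (yw (zh z) x.1.1 * z none ^ (x.2 : ℕ)) := by
  rw [mono_word z s hs, Fintype.sum_prod_type]
  have hs0 : s none < (n * n + 1) * D0 + 1 := by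
    have h1 : s none ≤ D0 := (Finset.single_le_sum (f := s) (fun _ _ => Nat.zero_le _) (Finset.mem_univ none)).trans hs
    nlinarith
  have h1 : ∀ β : B, ∑ j : Fin ((n * n + 1) * D0 + 1),
      (((if (j : ℕ) = s none then qv (M (wo D0 s) β) m / qv a m else 0 : ℚ)) : ℂ) * (yw (zh z) β.1 * z none ^ (j : ℕ)) =
      ((qv (M (wo D0 s) β) m / qv a m : ℚ) : ℂ) * (yw (zh z) β.1 * z none ^ s none) := by
    intro β
    rw [Finset.sum_eq_single (⟨s none, hs0⟩ : Fin ((n * n + 1) * D0 + 1))]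
    · rw [if_pos rfl]
    · intro j _ hj
      rw [if_neg, Rat.cast_zero, zero_mul]
      intro h
      exact hj (Fin.ext h)
    · intro h
      exact absurd (Finset.mem_univ _) h
  rw [Finset.sum_congr rfl fun β _ => h1 β]
  have ha' : (qv a m : ℂ) ≠ 0 := by exact_mod_cast ha
  have h2 : yw (zh z) (wo D0 s) = ∑ β, (qv (M (wo D0 s) β) m : ℂ) / (qv a m : ℂ) * yw (zh z) β.1 := by
    have h3 := hz (wo D0 s)
    rw [← mul_right_inj' ha', h3, Finset.mul_sum]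
    refine Finset.sum_congr rfl fun β _ => ?_
    field_simp
  rw [h2, Finset.mul_sum]
  refine Finset.sum_congr rfl fun β _ => ?_
  push_cast
  ring

/-- relations over `ℚ` of degree `≤ δ` hold on the orbits of the Galois group -/
theorem ratQL {T : Polynomial ℤ} {A : Fin n → Fin n → Polynomial ℤ} {N : Matrix (Fin n) (Fin n) ℤ}
    {Z W : Matrix (Fin n) (Fin n) ℚ⟦X⟧} (h : DatL T A N Z W) :
    ∃ x₀ R : ℕ, 1 ≤ x₀ ∧ ∀ δ k : ℕ, ∃ E₀ : ℕ, ∀ H t : ℕ, (H + 2) ^ E₀ ≤ t → H < t ∧ ∀ g : Fin k → ℕ, SepR R g → (∀ l, g l ≤ H) →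
      (∀ l, (x₀ : ℝ) < ((t - g l : ℕ) : ℝ)) ∧ ∀ P : MvPolynomial (Fin k × (Fin n × Fin n)) ℂ,
        (∀ m, P.coeff m ∈ (⊥ : Subfield ℂ)) → P.totalDegree ≤ δ →
        MvPolynomial.eval (cf fun l => E (N.map (Int.castRingHom ℂ)) (-((Real.log (1 - g l / t) : ℝ) : ℂ)) *
          Zm Z ((t - g l : ℕ) : ℝ)) P = 0 →
        ∀ Ω Θ : Matrix (Fin n) (Fin n) ℂ, Θ * Ω = 1 → ∀ γ : Fin k → Matrix (Fin n) (Fin n) ℂ,
        (∀ l, GalL Ω (N.map (Int.castRingHom ℂ)) Z x₀ (γ l)) →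
        MvPolynomial.eval (cf fun l => (E (N.map (Int.castRingHom ℂ)) ((Real.log t : ℝ) : ℂ) * Θ) * γ l *
          (Ω * E (N.map (Int.castRingHom ℂ)) (-((Real.log t : ℝ) : ℂ))) *
          (E (N.map (Int.castRingHom ℂ)) (-((Real.log (1 - g l / t) : ℝ) : ℂ)) * Zm Z ((t - g l : ℕ) : ℝ))) P = 0 := by
  classical
  have hF := gfL h
  obtain ⟨C, hC, hCh⟩ := hF.size'
  obtain ⟨x₀, hx₀⟩ := exists_nat_ge C
  obtain ⟨R, hR⟩ := base_words hF
  set Nc : Matrix (Fin n) (Fin n) ℂ := N.map (Int.castRingHom ℂ) with hNc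
  have hNn : Nc ^ n = 0 := by
    have h1 := map_pow (RingHom.mapMatrix (Int.castRingHom ℂ)) N n
    rw [h.nil, map_zero] at h1
    exact h1.symm
  refine ⟨x₀, R, by exact_mod_cast hC.trans hx₀, fun δ k => ?_⟩
  set D0 := δ * n with hD0
  obtain ⟨B, hBB, hLI, a, M, ha, hM⟩ := Pool.Agent.Y118.UL.max_li'
    (fun b : Fin ((n * n + 1) * D0) → Option (Fin (n * n)) => yw (hh Z) b) {fun _ => none} (by
      intro g hg i hi
      rw [Finset.sum_singleton] at hg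
      rw [Finset.mem_singleton.1 hi]
      have h1 : yw (hh Z) (fun _ : Fin ((n * n + 1) * D0) => (none : Option (Fin (n * n)))) = 1 :=
        Finset.prod_eq_one fun j _ => rfl
      rw [h1, mul_one] at hg
      exact Polynomial.coe_injective ℚ (by rw [hg, Polynomial.coe_zero]))
  obtain ⟨E₁, hE₁⟩ := hR ((n * n + 1) * D0) B (hBB (Finset.mem_singleton_self _)) hLI k
  obtain ⟨c₁, hc₁⟩ := Pool.Agent.Y113.GG.poly_ne ha
  obtain ⟨c₂, hc₂⟩ := Pool.Agent.Y678.HG.exists_two_pow ((x₀ : ℝ) + 1)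
  refine ⟨E₁ + (c₁ + c₂ + 1), fun H t ht => ?_⟩
  have hpos : 0 < H + 2 := by omega
  obtain ⟨hHt, h1⟩ := hE₁ H t ((Nat.pow_le_pow_right hpos (by omega)).trans ht)
  refine ⟨hHt, fun g hg hgH => ?_⟩
  have hli := h1 g hg hgH
  have h5 : ∀ l, 2 ^ (c₁ + c₂) ≤ t - g l := fun l =>
    Pool.Agent.Y113.GG.sub_large (c := c₁ + c₂) (by omega : c₁ + c₂ + 1 ≤ E₁ + (c₁ + c₂ + 1)) ht (hgH l)
  have h6 : ∀ l, (x₀ : ℝ) < ((t - g l : ℕ) : ℝ) ∧ qv a (t - g l) ≠ 0 := by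
    intro l
    have h7 : (2 : ℝ) ^ (c₁ + c₂) ≤ ((t - g l : ℕ) : ℝ) := by exact_mod_cast h5 l
    have h2 : (2 : ℝ) ^ c₁ ≤ ((t - g l : ℕ) : ℝ) := (pow_le_pow_right₀ (by norm_num) (by omega)).trans h7
    have h3 : (2 : ℝ) ^ c₂ ≤ ((t - g l : ℕ) : ℝ) := (pow_le_pow_right₀ (by norm_num) (by omega)).trans h7
    have h4 : (0 : ℝ) < ((t - g l : ℕ) : ℝ) := lt_of_lt_of_le (by positivity) h2
    refine ⟨by linarith, ?_⟩
    have h8 := hc₁ _ (by positivity) (one_div_le_one_div_of_le (by positivity) h2)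
    intro h9
    apply h8
    have h10 := cv_rat a (t - g l)
    unfold qv at h9
    rw [h9, cv_real, Rat.cast_zero] at h10
    have h11 : Polynomial.aeval (1 / ((t - g l : ℕ) : ℝ)) (a.map (Int.castRingHom ℚ)) = 0 := by exact_mod_cast h10
    rw [← h11]
    exact (Polynomial.aeval_map_algebraMap ℚ (1 / ((t - g l : ℕ) : ℝ)) a).symm
  refine ⟨fun l => (h6 l).1, fun P hP hd h0 Ω Θ hΘ γ hγ => ?_⟩
  -- the points
  set L : Fin k → ℂ := fun l => ((Real.log (1 - g l / t) : ℝ) : ℂ) with hL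
  set κ : Fin k → Matrix (Fin n) (Fin n) ℂ := fun l => E Nc ((Real.log ((t - g l : ℕ) : ℝ) : ℝ) : ℂ) * Θ * γ l * Ω *
      E Nc (-((Real.log ((t - g l : ℕ) : ℝ) : ℝ) : ℂ)) * Zm Z ((t - g l : ℕ) : ℝ) with hκ
  have hyrel : ∀ l b, (qv a (t - g l) : ℂ) * yw (zh (p1 (L l) (Zm Z ((t - g l : ℕ) : ℝ)))) b =
      ∑ β, (qv (M b β) (t - g l) : ℂ) * yw (zh (p1 (L l) (Zm Z ((t - g l : ℕ) : ℝ)))) β.1 := by
    intro l b
    have h7 := val_rel hC hCh (hM b) (lt_of_le_of_lt hx₀ (h6 l).1)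
    rw [cv_rat] at h7
    unfold qv
    refine Eq.trans h7 ?_
    refine Finset.sum_congr rfl fun β _ => ?_
    rw [cv_rat]
    rfl
  have hYrel : ∀ l b, (qv a (t - g l) : ℂ) * yw (zh (p1 (L l) (κ l))) b =
      ∑ β, (qv (M b β) (t - g l) : ℂ) * yw (zh (p1 (L l) (κ l))) β.1 := by
    intro l b
    have h7 := gal_hol hNn hΘ (hγ l) (px a * yw xs b - ∑ β, px (M b β) * yw xs β.1) (fun x hx => by
      rw [map_sub, map_mul, eval_px, eval_yw, map_sum, sub_eq_zero]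
      have h8 := val_rel hC hCh (hM b) (lt_of_le_of_lt hx₀ hx)
      refine Eq.trans h8 ?_
      refine Finset.sum_congr rfl fun β _ => ?_
      rw [map_mul, eval_px, eval_yw]
      rfl) ((t - g l : ℕ) : ℝ) (h6 l).1
    rw [map_sub, map_mul, eval_px, eval_yw, map_sum, sub_eq_zero] at h7
    unfold qv
    rw [← cv_rat]
    refine Eq.trans h7 ?_
    refine Finset.sum_congr rfl fun β _ => ?_
    rw [map_mul, eval_px, eval_yw, ← cv_rat]
    rfl
  have hmain := spec_basis (N := k) (V := Option (Fin n × Fin n)) (κ := B × Fin ((n * n + 1) * D0 + 1)) (D0 := D0)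
    (fun x z => yw (zh z) x.1.1 * z none ^ (x.2 : ℕ))
    (fun l s x => if (x.2 : ℕ) = s none then qv (M (wo D0 s) x.1) (t - g l) / qv a (t - g l) else 0)
    (fun l => p1 (L l) (Zm Z ((t - g l : ℕ) : ℝ))) (fun l => p1 (L l) (κ l))
    (fun l s hs => rel_mono (h6 l).2 _ (hyrel l) s hs) (fun l s hs => rel_mono (h6 l).2 _ (hYrel l) s hs) hli
    (MvPolynomial.aeval (sq Nc) P)
  have hBd := Bd.comp (K := ⊥) ⟨PK_of hP, hd⟩ (fun v => sq_Bd (k := k) (N := N) v)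
  have h8 := hmain (fun m => PK_coeff hBd.1 m) hBd.2 (by
    have h9 := sq_eval Nc L (fun l => Zm Z ((t - g l : ℕ) : ℝ)) P
    rw [h9]
    exact h0)
  have h9 := sq_eval Nc L κ P
  rw [h9] at h8
  have key : (fun l => (E Nc ((Real.log t : ℝ) : ℂ) * Θ) * γ l * (Ω * E Nc (-((Real.log t : ℝ) : ℂ))) *
      (E Nc (-((Real.log (1 - g l / t) : ℝ) : ℂ)) * Zm Z ((t - g l : ℕ) : ℝ))) = fun l => E Nc (-L l) * κ l := by
    funext l
    have h10 : g l < t := by
      have := hgH l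
      omega
    have hpos1 : (0 : ℝ) < t := by
      have : 0 < t := by omega
      exact_mod_cast this
    have hpos2 : (0 : ℝ) < 1 - g l / t := by
      rw [sub_pos, div_lt_one hpos1]
      exact_mod_cast h10
    have hlog : Real.log ((t - g l : ℕ) : ℝ) = Real.log t + Real.log (1 - g l / t) := by
      rw [← Real.log_mul hpos1.ne' hpos2.ne', Nat.cast_sub h10.le]
      congr 1
      field_simp
    have e1 : E Nc (-L l) * E Nc ((Real.log ((t - g l : ℕ) : ℝ) : ℝ) : ℂ) = E Nc ((Real.log t : ℝ) : ℂ) := by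
      rw [← E_add hNn, hlog]
      congr 1
      rw [hL]
      push_cast
      ring
    have e2 : E Nc (-((Real.log ((t - g l : ℕ) : ℝ) : ℝ) : ℂ)) =
        E Nc (-((Real.log t : ℝ) : ℂ)) * E Nc (-L l) := by
      rw [← E_add hNn, hlog]
      congr 1
      rw [hL]
      push_cast
      ring
    show _ = E Nc (-L l) * κ l
    rw [hκ]
    simp only
    rw [e2, ← e1]
    simp only [Matrix.mul_assoc]
    rfl
  rw [key]
  exact h8

end Pool.Agent.T44.GL
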