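import Pool.Agent.T44.GL.Ga

/-!
# Fibres near a degenerate fibre with few periods: the theorem
-/

set_option autoImplicit false
set_option linter.unusedSectionVars false

open PowerSeries

namespace Pool.Agent.T44.GL

open Pool.Agent.Y113 (ps SDc ev)
open Pool.Agent.Y120.GF Pool.Agent.Y120.GH Pool.Agent.Y124.TL Pool.Agent.T44.GF Pool.Agent.T44.EF
open Pool.Agent.TH127.PT Pool.Agent.Y123.ST Pool.Agent.Y123.SR Pool.Agent.TH119.DR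
open Pool.Agent.Y123.GN (EG Perf)
open Pool.Agent.Y119.HY (E_add E_zero E_mul_neg)

variable {n k : ℕ}

/-- the values of the fundamental matrix are invertible -/
theorem zm_unitL {T : Polynomial ℤ} {A : Fin n → Fin n → Polynomial ℤ} {N : Matrix (Fin n) (Fin n) ℤ}
    {Z W : Matrix (Fin n) (Fin n) ℚ⟦X⟧} (h : DatL T A N Z W) : ∃ X : ℕ, ∀ x : ℝ, (X : ℝ) < x → IsUnit (Zm Z x).det := by
  classical
  obtain ⟨C₁, hC₁, h1⟩ := Pool.Agent.Y119.HY.SDc.unif (y := fun p : Fin n × Fin n => Z p.1 p.2) fun p => h.gZ p.1 p.2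
  obtain ⟨C₂, hC₂, h2⟩ := Pool.Agent.Y119.HY.SDc.unif (y := fun p : Fin n × Fin n => W p.1 p.2) fun p => h.gW p.1 p.2
  obtain ⟨X, hX⟩ := exists_nat_ge (C₁ + C₂)
  refine ⟨X, fun x hx => ?_⟩
  have hx1 : C₁ < x := by linarith
  have hx2 : C₂ < x := by linarith
  have hx0 : 0 < x := by linarith
  have hr0 : (0 : ℝ) ≤ 1 / x := by positivity
  have hsZ : ∀ i j, Pool.Agent.Y37.GF.SR (1 / x) (Z i j) := fun i j => Pool.Agent.Y113.GG.sr_of hC₁ (h1.1 (i, j)) hx1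
  have hsW : ∀ i j, Pool.Agent.Y37.GF.SR (1 / x) (W i j) := fun i j => Pool.Agent.Y113.GG.sr_of hC₂ (h2.1 (i, j)) hx2
  have hWZ : Zm W x * Zm Z x = 1 := by
    ext i j
    rw [Matrix.mul_apply]
    have h1 : ∀ k, Zm W x i k * Zm Z x k j = ((Pool.Agent.Y37.GF.E (W i k * Z k j) (1 / x) : ℝ) : ℂ) := by
      intro k
      rw [Pool.Agent.Y37.GF.E_mul (hsW i k) (hsZ k j) (by rw [abs_of_nonneg hr0])]
      push_cast
      rfl
    rw [Finset.sum_congr rfl fun k _ => h1 k]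
    have h2 := (Pool.Agent.Y123.GN.sr_sum Finset.univ hr0 (F := fun k => W i k * Z k j)
      (fun k _ => Pool.Agent.Y37.GF.SR.mul hr0 (hsW i k) (hsZ k j))).2
    have h3 : ∑ k, W i k * Z k j = (1 : Matrix (Fin n) (Fin n) ℚ⟦X⟧) i j := by
      rw [← h.inv, Matrix.mul_apply]
    rw [← Complex.ofReal_sum, ← h2, h3, Matrix.one_apply]
    by_cases hij : i = j
    · subst hij
      rw [if_pos rfl, Matrix.one_apply_eq]
      have h3 := Pool.Agent.Y37.GF.E_C 1 (1 / x)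
      rw [map_one] at h3
      rw [h3]
      simp
    · rw [if_neg hij, Matrix.one_apply_ne hij]
      have h3 := Pool.Agent.Y37.GF.E_C 0 (1 / x)
      rw [map_zero] at h3
      rw [h3]
      simp
  exact Matrix.isUnit_det_of_left_inverse hWZ

/-- **the theorem** -/
theorem mainL (hA : S_ABS) (hNo : S_NORM) {T : Polynomial ℤ} {A : Fin n → Fin n → Polynomial ℤ}
    {N : Matrix (Fin n) (Fin n) ℤ} {Z W : Matrix (Fin n) (Fin n) ℚ⟦X⟧} (h : DatL T A N Z W) :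
    ∃ x₀ R : ℕ, 1 ≤ x₀ ∧ ∀ k D r s C : ℕ, ∃ E₀ : ℕ, ∀ H t : ℕ, (H + 2) ^ E₀ ≤ t → H < t ∧
      ∀ g : Fin k → ℕ, SepR R g → (∀ l, g l ≤ H) →
      (∀ l, (x₀ : ℝ) < ((t - g l : ℕ) : ℝ)) ∧ (∀ l, IsUnit (Zm Z ((t - g l : ℕ) : ℝ)).det) ∧
      ∀ (B₀ : Type) [Fintype B₀] [DecidableEq B₀], Fintype.card B₀ = r → ∀ C₀ : Matrix B₀ B₀ ℂ, IsUnit C₀.det →
      ∀ Ω Θ : Matrix (Fin n) (Fin n) ℂ, Ω * Θ = 1 → Θ * Ω = 1 → ∀ 𝒱 : Submodule ℚ ℂ, 𝒱.FG →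
      (∀ e, Module.finrank ℚ (𝒱 ^ e : Submodule ℚ ℂ) ≤ C * (e + 1) ^ s) → (∀ i j, C₀⁻¹ i j ∈ 𝒱) →
      (∀ i j, (Pool.Agent.Y119.HY.E (N.map (Int.castRingHom ℂ)) ((Real.log t : ℝ) : ℂ) * Θ) i j ∈ 𝒱) →
      ∀ K : Subfield ℂ, FiniteDimensional ℚ K → Module.finrank ℚ K ≤ D →
      ∀ 𝒩 : Set (Matrix (Fin n) (Fin n) ℂ), (∀ N' ∈ 𝒩, IsNilpotent N') →
      (∀ N' ∈ 𝒩, ∀ t : ℂ, GalL Ω (N.map (Int.castRingHom ℂ)) Z x₀ (IsNilpotent.exp (t • N'))) → Perf 𝒩 → NoSub s 𝒩 →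
      ∀ T : Set (Matrix (I2 B₀ n k) (I2 B₀ n k) ℂ), IsSubtorsor K T →
      E2 C₀ (fun l => PL Ω (N.map (Int.castRingHom ℂ)) Z ((t - g l : ℕ) : ℝ)) ∈ T →
      ∀ γ : Fin k → Matrix (Fin n) (Fin n) ℂ, (∀ l, γ l ∈ EG 𝒩) → ∀ x ∈ T, E2 1 γ * x ∈ T := by
  classical
  have hNn : (N.map (Int.castRingHom ℂ)) ^ n = 0 := by
    have h1 := map_pow (RingHom.mapMatrix (Int.castRingHom ℂ)) N n
    rw [h.nil, map_zero] at h1
    exact h1.symm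
  obtain ⟨x₀, R, hx₀, hmain⟩ := gen_allL hNo h
  obtain ⟨x₁, hx₁⟩ := zm_unitL h
  refine ⟨x₀, R, hx₀, fun k D r s C => ?_⟩
  obtain ⟨𝒟, h𝒟⟩ := hA (r + n * k)
  obtain ⟨E₀, hE⟩ := hmain (dlt C s (r + n * k) 𝒟) D k
  refine ⟨E₀ + (x₁ + 1), fun H t ht => ?_⟩
  have hpos : 0 < H + 2 := by omega
  have hE' : (H + 2) ^ E₀ ≤ t := le_trans (Nat.pow_le_pow_right hpos (by omega)) ht
  obtain ⟨hHt, h1⟩ := hE H t hE'
  refine ⟨hHt, fun g hg hgH => ?_⟩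
  obtain ⟨h2, h3⟩ := h1 g hg hgH
  have hx₁t : ∀ l, x₁ < t - g l := by
    intro l
    have h4 : (H + 2) ^ (x₁ + 1) ≤ t := le_trans (Nat.pow_le_pow_right hpos (by omega)) ht
    have h5 : H + x₁ < (H + 2) ^ (x₁ + 1) := by
      have h6 : x₁ < 2 ^ x₁ := Nat.lt_two_pow_self
      have h7 : 2 ^ x₁ ≤ (H + 2) ^ x₁ := Nat.pow_le_pow_left (by omega) _
      rw [pow_succ]
      nlinarith [h6, h7, Nat.zero_le H]
    have := hgH l
    omega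
  have hunit : ∀ l, IsUnit (Zm Z ((t - g l : ℕ) : ℝ)).det := fun l => hx₁ _ (by exact_mod_cast hx₁t l)
  refine ⟨h2, hunit, ?_⟩
  intro B₀ _ _ hr C₀ hC₀ Ω Θ hΩΘ hΘΩ 𝒱 h𝒱 hgr hC₀𝒱 hΘ𝒱 K hK hKD 𝒩 hnil hgal hperf hsub T hT hcT
  have hcard : Fintype.card (I2 B₀ n k) = r + n * k := by
    rw [Fintype.card_sum, Fintype.card_prod, Fintype.card_fin, Fintype.card_fin, hr]
  set Nc : Matrix (Fin n) (Fin n) ℂ := N.map (Int.castRingHom ℂ) with hNc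
  set Ωt : Matrix (Fin n) (Fin n) ℂ := Ω * Pool.Agent.Y119.HY.E Nc (-((Real.log t : ℝ) : ℂ)) with hΩt
  set Θt : Matrix (Fin n) (Fin n) ℂ := Pool.Agent.Y119.HY.E Nc ((Real.log t : ℝ) : ℂ) * Θ with hΘt
  have hEE : Pool.Agent.Y119.HY.E Nc ((Real.log t : ℝ) : ℂ) * Pool.Agent.Y119.HY.E Nc (-((Real.log t : ℝ) : ℂ)) = 1 :=
    E_mul_neg hNn _
  have hEE' : Pool.Agent.Y119.HY.E Nc (-((Real.log t : ℝ) : ℂ)) * Pool.Agent.Y119.HY.E Nc ((Real.log t : ℝ) : ℂ) = 1 := by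
    have h4 := E_mul_neg hNn (-((Real.log t : ℝ) : ℂ))
    rwa [neg_neg] at h4
  have hΘΩt : Θt * Ωt = 1 := by
    calc Θt * Ωt = Pool.Agent.Y119.HY.E Nc ((Real.log t : ℝ) : ℂ) * (Θ * Ω) *
          Pool.Agent.Y119.HY.E Nc (-((Real.log t : ℝ) : ℂ)) := by
          rw [hΘt, hΩt]
          simp only [Matrix.mul_assoc]
      _ = 1 := by rw [hΘΩ, Matrix.mul_one, hEE]
  have hΩΘt : Ωt * Θt = 1 := by
    calc Ωt * Θt = Ω * (Pool.Agent.Y119.HY.E Nc (-((Real.log t : ℝ) : ℂ)) *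
          Pool.Agent.Y119.HY.E Nc ((Real.log t : ℝ) : ℂ)) * Θ := by
          rw [hΘt, hΩt]
          simp only [Matrix.mul_assoc]
      _ = 1 := by rw [hEE', Matrix.mul_one, hΩΘ]
  set y : Fin k → Matrix (Fin n) (Fin n) ℂ := fun l => Pool.Agent.Y119.HY.E Nc (-((Real.log (1 - g l / t) : ℝ) : ℂ)) *
    Zm Z ((t - g l : ℕ) : ℝ) with hy
  have hEu : ∀ v : ℂ, IsUnit (Pool.Agent.Y119.HY.E Nc v).det := fun v =>
    Matrix.isUnit_det_of_right_inverse (E_mul_neg hNn v)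
  have hyu : ∀ l, IsUnit (y l).det := fun l => by
    rw [hy]
    show IsUnit (Pool.Agent.Y119.HY.E Nc _ * Zm Z _).det
    rw [Matrix.det_mul]
    exact (hEu _).mul (hunit l)
  have hPL : (fun l => PL Ω Nc Z ((t - g l : ℕ) : ℝ)) = fun l => Ωt * y l := by
    funext l
    have h10 : g l < t := by
      have := hgH l
      omega
    have hpos1 : (0 : ℝ) < t := by
      have : 0 < t := by omega
      exact_mod_cast this
    have hpos2 : (0 : ℝ) < 1 - g l / t := by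
      rw [sub_pos, div_lt_one hpos1]
      exact_mod_cast h10
    have hlog : Real.log ((t - g l : ℕ) : ℝ) = Real.log t + Real.log (1 - g l / t) := by
      rw [← Real.log_mul hpos1.ne' hpos2.ne', Nat.cast_sub h10.le]
      congr 1
      field_simp
    have e2 : Pool.Agent.Y119.HY.E Nc (-((Real.log ((t - g l : ℕ) : ℝ) : ℝ) : ℂ)) =
        Pool.Agent.Y119.HY.E Nc (-((Real.log t : ℝ) : ℂ)) *
          Pool.Agent.Y119.HY.E Nc (-((Real.log (1 - g l / t) : ℝ) : ℂ)) := by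
      rw [← E_add hNn, hlog]
      congr 1
      push_cast
      ring
    unfold PL
    rw [e2, hΩt, hy]
    simp only [Matrix.mul_assoc]
  rw [hPL] at hcT
  refine stable (fun K' => h𝒟 (I2 B₀ n k) hcard K') (countable_of_fin hK) hT hcT hnil hperf ?_
  intro N' hN' l τ d hd
  exact blkRelH hK hKD hnil hsub hΩΘt hΘΩt hC₀ h𝒱 hC₀𝒱 hΘ𝒱 hgr hyu (h3 Ω Θ hΘΩ 𝒩 hnil hgal) hT hcT (le_dlt hcard hd) N' hN'
    l τ

end Pool.Agent.T44.GL
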