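import Mathlib

/-!
# Relations over the rational numbers between values and bases
-/

set_option autoImplicit false

namespace Pool.Agent.T44.GL

/-- relations over `ℚ` of degree `≤ D0` at `y` hold at `Y` -/
theorem spec_basis {N : ℕ} {V κ : Type} [Fintype V] [DecidableEq V] [Fintype κ] {D0 : ℕ}
    (φ : κ → (V → ℂ) → ℂ) (w : Fin N → (V → ℕ) → κ → ℚ) (y Y : Fin N → V → ℂ)
    (hy : ∀ l (s : V → ℕ), ∑ v, s v ≤ D0 → ∏ v, y l v ^ s v = ∑ k, (w l s k : ℂ) * φ k (y l))
    (hY : ∀ l (s : V → ℕ), ∑ v, s v ≤ D0 → ∏ v, Y l v ^ s v = ∑ k, (w l s k : ℂ) * φ k (Y l))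
    (hli : LinearIndependent ℚ (fun e : Fin N → κ => ∏ l, φ (e l) (y l)))
    (P : MvPolynomial (Fin N × V) ℂ) (hP : ∀ m, P.coeff m ∈ (⊥ : Subfield ℂ)) (hD : P.totalDegree ≤ D0)
    (h0 : MvPolynomial.eval (fun x => y x.1 x.2) P = 0) : MvPolynomial.eval (fun x => Y x.1 x.2) P = 0 := by
  classical
  have hq : ∀ m, ∃ q : ℚ, (q : ℂ) = P.coeff m := by
    intro m
    have h1 := hP m
    rw [Subfield.bot_eq_of_charZero] at h1
    obtain ⟨q, hq⟩ := h1
    exact ⟨q, by rw [← hq]; rfl⟩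
  choose q hq using hq
  have hexp : ∀ g : Fin N → V → ℂ, (∀ l (s : V → ℕ), ∑ v, s v ≤ D0 →
      ∏ v, g l v ^ s v = ∑ k, (w l s k : ℂ) * φ k (g l)) → MvPolynomial.eval (fun x : Fin N × V => g x.1 x.2) P =
      ∑ e : Fin N → κ, (((∑ m ∈ P.support, q m * ∏ l, w l (fun v => m (l, v)) (e l) : ℚ)) : ℂ) *
        ∏ l, φ (e l) (g l) := by
    intro g hg
    rw [MvPolynomial.eval_eq']
    have h1 : ∀ m ∈ P.support, P.coeff m * ∏ x : Fin N × V, g x.1 x.2 ^ m x =
        ∑ e : Fin N → κ, (((q m * ∏ l, w l (fun v => m (l, v)) (e l) : ℚ)) : ℂ) * ∏ l, φ (e l) (g l) := by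
      intro m hm
      have h3 : ∀ l, ∏ v, g l v ^ m (l, v) = ∑ k, (w l (fun v => m (l, v)) k : ℂ) * φ k (g l) := by
        intro l
        refine hg l _ ?_
        refine le_trans ?_ ((MvPolynomial.le_totalDegree hm).trans hD)
        rw [Finsupp.sum_fintype _ _ (fun _ => rfl), Fintype.sum_prod_type]
        exact Finset.single_le_sum (f := fun l => ∑ v : V, m (l, v)) (fun _ _ => Nat.zero_le _) (Finset.mem_univ l)
      rw [Fintype.prod_prod_type, Finset.prod_congr rfl fun l _ => h3 l, Finset.prod_univ_sum, Fintype.piFinset_univ,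
        Finset.mul_sum, ← hq]
      refine Finset.sum_congr rfl fun e _ => ?_
      rw [Finset.prod_mul_distrib]
      push_cast
      ring
    rw [Finset.sum_congr rfl h1, Finset.sum_comm]
    refine Finset.sum_congr rfl fun e _ => ?_
    push_cast
    rw [Finset.sum_mul]
  rw [hexp y hy] at h0
  have h2 := (Fintype.linearIndependent_iff.1 hli) (fun e => ∑ m ∈ P.support, q m * ∏ l, w l (fun v => m (l, v)) (e l)) (by
    rw [← h0]
    refine Finset.sum_congr rfl fun e _ => ?_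
    rw [Rat.smul_def])
  rw [hexp Y hY]
  refine Finset.sum_eq_zero fun e _ => ?_
  rw [h2 e, Rat.cast_zero, zero_mul]

end Pool.Agent.T44.GL
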