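import Pool.Agent.Y124.TL.Rf
import Pool.Agent.T44.GL.Ex

/-!
# Independence of the values of the words of a basis and of the powers of the logarithms at all tuples in windows
-/

set_option autoImplicit false

open PowerSeries Pool.Agent.Y113 Pool.Agent.Y120.GF Pool.Agent.Y120.GH Pool.Agent.Y124.TL

namespace Pool.Agent.T44.GL

variable {r : ℕ}

/-- **the base** -/
theorem base_words {T : Polynomial ℤ} {A : Fin r → Fin r → Polynomial ℤ} {h : Fin r → ℚ⟦X⟧} (hF : GF T A h) :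
    ∃ R : ℕ, ∀ (δ : ℕ) (B₀ : Finset (Fin δ → Option (Fin r))), (fun _ => none) ∈ B₀ →
      LinearIndependent (Polynomial ℚ) (fun b : B₀ => yw h b.1) → ∀ k : ℕ, ∃ E : ℕ, ∀ H t : ℕ, (H + 2) ^ E ≤ t →
        H < t ∧ ∀ g : Fin k → ℕ, SepR R g → (∀ l, g l ≤ H) →
          LinearIndependent ℚ (fun b : Fin k → B₀ × Fin (δ + 1) => ∏ l, (yw (hv h ((t - g l : ℕ) : ℝ)) (b l).1.1 *
            (((Real.log (1 - g l / t) : ℝ) : ℂ)) ^ ((b l).2 : ℕ))) := by
  classical
  obtain ⟨q₁, C₁, hG₁⟩ := hF.gs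
  obtain ⟨R, hR⟩ := fam hF.ne hF.ode hG₁ hF.qu
  refine ⟨R, fun δ B₀ h0 hli k => ?_⟩
  obtain ⟨B, hB, ⟨C, hC, hCw⟩, hE⟩ := hR δ B₀ h0 (by
    intro g hg
    rw [← Finset.sum_coe_sort B₀ (fun i => (g i : ℚ⟦X⟧) * yw h i)] at hg
    have h1 := (Fintype.linearIndependent_iff.1 hli) (fun b => g b.1) (by
      rw [← hg]
      refine Finset.sum_congr rfl fun s _ => ?_
      rw [Pool.Agent.Y120.GF.psmul])
    intro i hi
    exact h1 ⟨i, hi⟩)
  obtain ⟨E, hE⟩ := hE k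
  obtain ⟨C₀, hC₀, hC₀h⟩ := hF.size'
  obtain ⟨C₃, hC₃⟩ := exists_nat_ge (C + C₀)
  refine ⟨E + (C₃ + 1), ?_⟩
  intro H t hHt
  have hp : 0 < (H + 2) ^ (C₃ + 1) := by positivity
  have h1 : (H + 2) ^ E ≤ t := (Nat.pow_le_pow_right (by omega) (by omega)).trans hHt
  have hHt' : H + C₃ < t := by
    have h1 : (H + 2) ^ (C₃ + 1) ≤ t := (Nat.pow_le_pow_right (by omega) (by omega)).trans hHt
    have h2 : C₃ < 2 ^ C₃ := Nat.lt_two_pow_self
    have h3 : 2 ^ C₃ ≤ (H + 2) ^ C₃ := Nat.pow_le_pow_left (by omega) _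
    have h4 : (C₃ + 1) * (H + 2) ≤ (H + 2) ^ (C₃ + 1) := by
      rw [pow_succ]
      exact Nat.mul_le_mul_right _ (by omega)
    have h5 : H + C₃ < (C₃ + 1) * (H + 2) := by nlinarith
    omega
  refine ⟨by omega, fun g hg hgH => ?_⟩
  have hbase := hE H t h1 g hg hgH
  have hbase2 : LinearIndependent ℚ (fun b : Fin k → B × Fin (δ + 1) =>
      ((∏ l, ev (t : ℝ) (Fg (δ + 1) (fun β : B => yw h β.1) (g l) (b l)) : ℝ) : ℂ)) := by
    have h2 := hbase.map' ((Algebra.linearMap ℝ ℂ).restrictScalars ℚ) (by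
      rw [LinearMap.ker_eq_bot]
      intro x y hxy
      exact Complex.ofReal_injective hxy)
    exact h2
  have hval : ∀ b : Fin k → B × Fin (δ + 1),
      ((∏ l, ev (t : ℝ) (Fg (δ + 1) (fun β : B => yw h β.1) (g l) (b l)) : ℝ) : ℂ) =
      (∏ l, (1 / (((b l).2 : ℕ).factorial : ℚ)) : ℚ) • ∏ l, (yw (hv h ((t - g l : ℕ) : ℝ)) (b l).1.1 *
        (((Real.log (1 - g l / t) : ℝ) : ℂ)) ^ ((b l).2 : ℕ)) := by
    intro b
    rw [Rat.smul_def]
    push_cast
    rw [← Finset.prod_mul_distrib]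
    refine Finset.prod_congr rfl fun l _ => ?_
    have h4 : g l + C₃ < t := by
      have := hgH l
      omega
    have h3 : ((g l : ℕ) : ℝ) + C < t := by
      have h5 : ((g l : ℝ) + C₃) < t := by exact_mod_cast h4
      linarith
    have h6 := Pool.Agent.Y124.TD.ev_Fg (n := δ) hC (fun β : B => hCw β.1) h3 (b l)
    rw [h6]
    have h7 : ((ev ((t - g l : ℕ) : ℝ) (yw h (b l).1.1) : ℝ) : ℂ) = yw (hv h ((t - g l : ℕ) : ℝ)) (b l).1.1 := by
      refine ev_yw hC₀ hC₀h _ ?_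
      rw [Nat.cast_sub (by omega)]
      have h5 : ((g l : ℝ) + C₃) < t := by exact_mod_cast h4
      linarith
    rw [h7]
    push_cast
    ring
  have hbase3 : LinearIndependent ℚ (fun b : Fin k → B × Fin (δ + 1) => ∏ l, (yw (hv h ((t - g l : ℕ) : ℝ)) (b l).1.1 *
        (((Real.log (1 - g l / t) : ℝ) : ℂ)) ^ ((b l).2 : ℕ))) := by
    have hu : ∀ b : Fin k → B × Fin (δ + 1), IsUnit (∏ l, (1 / (((b l).2 : ℕ).factorial : ℚ)) : ℚ) := by
      intro b
      rw [isUnit_iff_ne_zero, Finset.prod_ne_zero_iff]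
      intro l _
      exact one_div_ne_zero (by exact_mod_cast Nat.factorial_ne_zero _)
    choose u hu using hu
    rw [← LinearIndependent.units_smul_iff (w := u)]
    convert hbase2 using 1
    funext b
    rw [hval b, ← hu b]
    rfl
  -- restriction
  exact hbase3.comp (fun (b : Fin k → B₀ × Fin (δ + 1)) l => (⟨(b l).1.1, hB (b l).1.2⟩, (b l).2)) (by
    intro b b' hbb
    funext l
    have h1 := congrFun hbb l
    have h2 := congrArg (fun p : B × Fin (δ + 1) => (p.1 : Fin δ → Option (Fin r))) h1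
    have h3 := congrArg (fun p : B × Fin (δ + 1) => p.2) h1
    exact Prod.ext (Subtype.ext h2) h3)

end Pool.Agent.T44.GL
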