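import Pool.Agent.T44.GF.Alg
import Pool.Agent.Y119.HY.Gal

/-!
# The growth of the spaces of the products of the entries, with one parameter
-/

set_option autoImplicit false
set_option linter.unusedSectionVars false

namespace Pool.Agent.T44.GL

open Pool.Agent.T44.GF

theorem countable_adj {s : ℕ} (θ : Fin s → ℂ) : Countable (IntermediateField.adjoin ℚ (Set.range θ)) := by
  have h := IntermediateField.cardinalMk_adjoin_le ℚ (Set.range θ)
  rw [← Cardinal.mk_le_aleph0_iff]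
  refine h.trans ?_
  simp

/-- a number transcendental over the algebraic closure of a field of finite type -/
theorem exists_w {s : ℕ} (θ : Fin s → ℂ) : ∃ w : ℂ, w ∉ acl (IntermediateField.adjoin ℚ (Set.range θ)) := by
  have h1 := countable_adj θ
  have h2 : ({z : ℂ | IsAlgebraic (IntermediateField.adjoin ℚ (Set.range θ)) z} : Set ℂ).Countable := Algebraic.countable _ _
  by_contra hcon
  push Not at hcon
  have h3 : (Set.univ : Set ℂ).Countable := h2.mono fun z _ => mem_acl.1 (hcon z)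
  exact not_countable_complex h3

/-- the polynomials over the subfield, times `lam ^ e` -/
noncomputable def LPs (L : Subfield ℂ) (lam : ℂ) (e : ℕ) : Submodule ℚ (Polynomial ℂ) where
  carrier := {f | ∃ P : Polynomial L, f = Polynomial.C (lam ^ e) * P.map (algebraMap L ℂ)}
  add_mem' := by
    rintro _ _ ⟨P, rfl⟩ ⟨Q, rfl⟩
    exact ⟨P + Q, by rw [Polynomial.map_add, mul_add]⟩
  zero_mem' := ⟨0, by simp⟩
  smul_mem' := by
    rintro q _ ⟨P, rfl⟩
    refine ⟨Polynomial.C (algebraMap ℚ L q) * P, ?_⟩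
    rw [Polynomial.map_mul, Polynomial.map_C, Algebra.smul_def]
    have h1 : algebraMap ℚ (Polynomial ℂ) q = Polynomial.C (algebraMap L ℂ (algebraMap ℚ L q)) := by
      rw [← IsScalarTower.algebraMap_apply ℚ L ℂ]
      rfl
    rw [h1]
    ring

theorem pow_le_of {A : Type} [CommRing A] [Algebra ℚ A] (𝒲 : Submodule ℚ A) (𝓛 : ℕ → Submodule ℚ A) (h0 : 1 ∈ 𝓛 0)
    (hmul : ∀ e f g, f ∈ 𝓛 e → g ∈ 𝒲 → f * g ∈ 𝓛 (e + 1)) (e : ℕ) : 𝒲 ^ e ≤ 𝓛 e := by
  induction e with
  | zero =>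
    rw [pow_zero, Submodule.one_le]
    exact h0
  | succ e ih =>
    rw [pow_succ]
    exact Submodule.mul_le.2 fun f hf g hg => hmul e f g (ih hf) hg

theorem grow_spec {A : Type} [CommRing A] [Algebra ℚ A] {𝒲 : Submodule ℚ A} (h𝒲 : 𝒲.FG) (φ ψ : A →ₐ[ℚ] ℂ)
    (hinj : ∀ (e : ℕ), ∀ f ∈ 𝒲 ^ e, φ f = 0 → f = 0) {C s : ℕ}
    (hC : ∀ e, Module.finrank ℚ ((𝒲.map φ.toLinearMap) ^ e : Submodule ℚ ℂ) ≤ C * (e + 1) ^ s) (e : ℕ) :
    Module.finrank ℚ ((𝒲.map ψ.toLinearMap) ^ e : Submodule ℚ ℂ) ≤ C * (e + 1) ^ s := by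
  have hfg : (𝒲 ^ e : Submodule ℚ A).FG := h𝒲.pow e
  have hfin : Module.Finite ℚ (𝒲 ^ e : Submodule ℚ A) := Module.Finite.iff_fg.2 hfg
  have h1 : (𝒲.map ψ.toLinearMap) ^ e = (𝒲 ^ e).map ψ.toLinearMap := (Submodule.map_pow 𝒲 ψ e).symm
  have h2 : (𝒲.map φ.toLinearMap) ^ e = (𝒲 ^ e).map φ.toLinearMap := (Submodule.map_pow 𝒲 φ e).symm
  have h3 : Module.finrank ℚ ((𝒲 ^ e).map φ.toLinearMap) = Module.finrank ℚ (𝒲 ^ e : Submodule ℚ A) := by
    rw [← LinearMap.range_domRestrict]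
    refine LinearMap.finrank_range_of_inj ?_
    intro f g hfg'
    have h4 : φ ((f : A) - g) = 0 := by
      rw [map_sub, sub_eq_zero]
      exact hfg'
    have h5 := hinj e ((f : A) - g) (Submodule.sub_mem _ f.2 g.2) h4
    exact Subtype.ext (sub_eq_zero.1 h5)
  have h4 := hC e
  rw [h2, h3] at h4
  rw [h1]
  exact (Submodule.finrank_map_le _ _).trans h4

theorem inj_of_transc {F : IntermediateField ℚ ℂ} {w : ℂ} (hw : w ∉ acl F) {P : Polynomial (acl F)}
    (h : (P.map (algebraMap (acl F) ℂ)).eval w = 0) : P = 0 := by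
  by_contra h0
  apply hw
  rw [mem_acl]
  have h1 : ¬ Transcendental (algebraicClosure F ℂ) w := by
    intro h2
    apply h2
    have h3 : Polynomial.eval₂ (algebraMap (acl F) ℂ) w P = 0 := by
      rw [← Polynomial.eval_map]
      exact h
    exact ⟨P, h0, h3⟩
  by_contra h2
  exact h1 (Transcendental.algebraicClosure h2)

theorem acl_mono {F F' : IntermediateField ℚ ℂ} (h : F ≤ F') : acl F ≤ acl F' := by
  intro z hz
  rw [mem_acl] at hz ⊢
  obtain ⟨P, hP, hPz⟩ := hz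
  refine ⟨P.map (IntermediateField.inclusion h).toRingHom, ?_, ?_⟩
  · exact (Polynomial.map_ne_zero_iff (IntermediateField.inclusion h).injective).2 hP
  · rw [Polynomial.aeval_def, Polynomial.eval₂_map]
    rw [Polynomial.aeval_def] at hPz
    exact hPz

/-- evaluation -/
noncomputable def evA (v : ℂ) : Polynomial ℂ →ₐ[ℚ] ℂ := (Polynomial.aeval v : Polynomial ℂ →ₐ[ℂ] ℂ).restrictScalars ℚ

theorem evA_apply (v : ℂ) (f : Polynomial ℂ) : evA v f = f.eval v := rfl

/-- **growth with one parameter** -/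
theorem grow_param (hG : S_GROW) {s : ℕ} {θ : Fin s → ℂ} {lam : ℂ} (hlam : lam ≠ 0) {ι : Type} [Finite ι]
    {F : IntermediateField ℚ ℂ} (hF : F = IntermediateField.adjoin ℚ (Set.range θ)) (p : ι → Polynomial (acl F)) :
    ∃ C : ℕ, ∀ v : ℂ, ∃ 𝒱 : Submodule ℚ ℂ, 𝒱.FG ∧
      (∀ e, Module.finrank ℚ (𝒱 ^ e : Submodule ℚ ℂ) ≤ C * (e + 1) ^ (s + 1)) ∧
      ∀ i, lam * ((p i).map (algebraMap (acl F) ℂ)).eval v ∈ 𝒱 := by
  obtain ⟨w, hw⟩ := exists_w θ
  rw [← hF] at hw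
  set q : ι → Polynomial ℂ := fun i => Polynomial.C lam * (p i).map (algebraMap (acl F) ℂ) with hq
  set θ' : Fin (s + 1) → ℂ := Fin.snoc θ w with hθ'
  have hFF : F ≤ IntermediateField.adjoin ℚ (Set.range θ') := by
    rw [hF]
    refine IntermediateField.adjoin.mono ℚ _ _ ?_
    rintro _ ⟨i, rfl⟩
    exact ⟨i.castSucc, by rw [hθ', Fin.snoc_castSucc]⟩
  have hwF : w ∈ acl (IntermediateField.adjoin ℚ (Set.range θ')) := by
    have h1 : w ∈ IntermediateField.adjoin ℚ (Set.range θ') :=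
      IntermediateField.subset_adjoin ℚ _ ⟨Fin.last s, by rw [hθ', Fin.snoc_last]⟩
    exact mem_acl.2 (isAlgebraic_algebraMap (⟨w, h1⟩ : IntermediateField.adjoin ℚ (Set.range θ')))
  have hqe : ∀ i v, (q i).eval v = lam * ((p i).map (algebraMap (acl F) ℂ)).eval v := fun i v => by
    rw [hq]
    simp only [Polynomial.eval_mul, Polynomial.eval_C]
  obtain ⟨C, hC⟩ := hG (s + 1) θ' ι (fun i => (q i).eval w) lam hlam (by
    intro i
    rw [← mem_acl]
    show (q i).eval w / lam ∈ _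
    rw [hqe, mul_div_cancel_left₀ _ hlam, Polynomial.eval_eq_sum_range]
    refine (acl _).sum_mem fun j _ => ?_
    rw [Polynomial.coeff_map]
    exact (acl _).mul_mem (acl_mono hFF ((p i).coeff j).2) ((acl _).pow_mem hwF _))
  refine ⟨C, fun v => ?_⟩
  set 𝒲 : Submodule ℚ (Polynomial ℂ) := Submodule.span ℚ (Set.range q) with h𝒲
  have h𝒲fg : 𝒲.FG := Submodule.fg_span (Set.finite_range _)
  have hmap : ∀ u : ℂ, 𝒲.map (evA u).toLinearMap = Submodule.span ℚ (Set.range fun i => (q i).eval u) := by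
    intro u
    rw [h𝒲, Submodule.map_span, ← Set.range_comp]
    rfl
  have h1 : 𝒲 ≤ LPs (acl F) lam 1 := by
    rw [h𝒲, Submodule.span_le]
    rintro _ ⟨i, rfl⟩
    exact ⟨p i, by rw [pow_one]⟩
  have h2 := pow_le_of 𝒲 (LPs (acl F) lam) ⟨1, by simp⟩ (by
    rintro e f g ⟨P, rfl⟩ hg
    obtain ⟨Q, rfl⟩ := h1 hg
    refine ⟨P * Q, ?_⟩
    rw [Polynomial.map_mul, pow_one, pow_succ, Polynomial.C_mul]
    ring)
  refine ⟨𝒲.map (evA v).toLinearMap, h𝒲fg.map _, ?_, fun i => ?_⟩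
  · refine grow_spec h𝒲fg (evA w) (evA v) ?_ (fun e => ?_)
    · intro e f hf hf0
      obtain ⟨P, rfl⟩ := h2 e hf
      rw [evA_apply, Polynomial.eval_mul, Polynomial.eval_C] at hf0
      have h3 := (mul_eq_zero.1 hf0).resolve_left (pow_ne_zero _ hlam)
      rw [inj_of_transc hw h3, Polynomial.map_zero, mul_zero]
    · rw [hmap]
      exact hC e
  · rw [← hqe, ← evA_apply]
    exact Submodule.mem_map_of_mem (f := (evA v).toLinearMap) (Submodule.subset_span ⟨i, rfl⟩)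

/-- the exponential with polynomial entries over a subfield -/
noncomputable def EpL (L : Subfield ℂ) {n : ℕ} (N : Matrix (Fin n) (Fin n) ℤ) (a b : Fin n) : Polynomial L :=
  ∑ i ∈ Finset.range n, Polynomial.C ((1 / (i.factorial : L)) * (((N ^ i) a b : ℤ) : L)) * Polynomial.X ^ i

theorem EpL_eval (L : Subfield ℂ) {n : ℕ} (N : Matrix (Fin n) (Fin n) ℤ) (a b : Fin n) (v : ℂ) :
    ((EpL L N a b).map (algebraMap L ℂ)).eval v = Pool.Agent.Y119.HY.E (N.map (Int.castRingHom ℂ)) v a b := by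
  unfold EpL Pool.Agent.Y119.HY.E
  rw [Polynomial.map_sum, Polynomial.eval_finsetSum, Matrix.sum_apply]
  refine Finset.sum_congr rfl fun i _ => ?_
  have h2 : (N.map (Int.castRingHom ℂ)) ^ i = (N ^ i).map (Int.castRingHom ℂ) :=
    (map_pow (RingHom.mapMatrix (Int.castRingHom ℂ)) N i).symm
  rw [Matrix.smul_apply, h2, Matrix.map_apply, Polynomial.map_mul, Polynomial.map_C, Polynomial.map_pow, Polynomial.map_X,
    Polynomial.eval_mul, Polynomial.eval_C, Polynomial.eval_pow, Polynomial.eval_X]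
  simp only [map_mul, map_div₀, map_one, map_natCast, map_intCast, smul_eq_mul, eq_intCast]
  ring

/-- the number of additional periods -/
noncomputable def ad {n : ℕ} (N : Matrix (Fin n) (Fin n) ℤ) : ℕ := by
  classical
  exact if N = 0 then 0 else 1

/-- **the spaces** -/
theorem exists_spaceL (hG : S_GROW) {s : ℕ} {θ : Fin s → ℂ} {lam : ℂ} (hlam : lam ≠ 0) {r n : ℕ}
    {C₁ : Matrix (Fin r) (Fin r) ℂ} {Θ : Matrix (Fin n) (Fin n) ℂ}
    (hC₁ : ∀ i j, IsAlgebraic (IntermediateField.adjoin ℚ (Set.range θ)) (C₁ i j / lam))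
    (hΘ : ∀ i j, IsAlgebraic (IntermediateField.adjoin ℚ (Set.range θ)) (Θ i j / lam)) (N : Matrix (Fin n) (Fin n) ℤ) :
    ∃ C : ℕ, ∀ v : ℂ, ∃ 𝒱 : Submodule ℚ ℂ, 𝒱.FG ∧
      (∀ e, Module.finrank ℚ (𝒱 ^ e : Submodule ℚ ℂ) ≤ C * (e + 1) ^ (s + ad N)) ∧
      (∀ i j, C₁ i j ∈ 𝒱) ∧ ∀ i j, (Pool.Agent.Y119.HY.E (N.map (Int.castRingHom ℂ)) v * Θ) i j ∈ 𝒱 := by
  classical
  by_cases hN : N = 0
  · obtain ⟨𝒱, C, h1, h2, h3⟩ := exists_space hG hlam
      (Sum.elim (fun ij : Fin r × Fin r => C₁ ij.1 ij.2) fun ij : Fin n × Fin n => Θ ij.1 ij.2) (by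
        rintro (ij | ij)
        · exact hC₁ ij.1 ij.2
        · exact hΘ ij.1 ij.2)
    refine ⟨C, fun v => ⟨𝒱, h1, ?_, fun i j => h3 (Sum.inl (i, j)), fun i j => ?_⟩⟩
    · have h4 : ad N = 0 := if_pos hN
      rw [h4]
      exact h2
    · have h5 : Pool.Agent.Y119.HY.E (N.map (Int.castRingHom ℂ)) v = 1 := by
        have h6 : (N.map (Int.castRingHom ℂ)) = 0 := by
          rw [hN]
          ext a b
          simp
        have hn : 0 < n := i.pos
        rw [h6]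
        unfold Pool.Agent.Y119.HY.E
        rw [Finset.sum_eq_single 0]
        · simp
        · intro m _ hm
          rw [zero_pow hm, smul_zero]
        · intro h
          exact absurd (Finset.mem_range.2 hn) h
      rw [h5, Matrix.one_mul]
      exact h3 (Sum.inr (i, j))
  · have h4 : ad N = 1 := if_neg hN
    rw [h4]
    have hC₁' : ∀ i j, C₁ i j / lam ∈ acl (IntermediateField.adjoin ℚ (Set.range θ)) := fun i j => mem_acl.2 (hC₁ i j)
    have hΘ' : ∀ i j, Θ i j / lam ∈ acl (IntermediateField.adjoin ℚ (Set.range θ)) := fun i j => mem_acl.2 (hΘ i j)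
    obtain ⟨C, hC⟩ := grow_param hG hlam (F := IntermediateField.adjoin ℚ (Set.range θ)) rfl
      (Sum.elim (fun ij : Fin r × Fin r => Polynomial.C ⟨C₁ ij.1 ij.2 / lam, hC₁' ij.1 ij.2⟩)
        fun ij : Fin n × Fin n => ∑ c, EpL _ N ij.1 c * Polynomial.C ⟨Θ c ij.2 / lam, hΘ' c ij.2⟩)
    refine ⟨C, fun v => ?_⟩
    obtain ⟨𝒱, h1, h2, h3⟩ := hC v
    refine ⟨𝒱, h1, h2, fun i j => ?_, fun i j => ?_⟩
    · have h5 := h3 (Sum.inl (i, j))
      rw [Sum.elim_inl, Polynomial.map_C, Polynomial.eval_C] at h5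
      have h6 : lam * (C₁ i j / lam) = C₁ i j := by field_simp
      rw [← h6]
      exact h5
    · have h5 := h3 (Sum.inr (i, j))
      rw [Sum.elim_inr, Polynomial.map_sum, Polynomial.eval_finsetSum, Finset.mul_sum] at h5
      rw [Matrix.mul_apply]
      refine (congrArg (· ∈ 𝒱) (Finset.sum_congr rfl fun c _ => ?_)).mp h5
      rw [Polynomial.map_mul, Polynomial.eval_mul, EpL_eval, Polynomial.map_C, Polynomial.eval_C]
      have h6 : lam * (Θ c j / lam) = Θ c j := by field_simp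
      show lam * (_ * (Θ c j / lam)) = _
      rw [← mul_assoc, mul_comm lam, mul_assoc, h6]

end Pool.Agent.T44.GL
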