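import Pool.Agent.T44.GF.Cls
import Pool.Agent.Y123.GN.C5

/-!
# The torsor of the polarisations is a subtorsor
-/

set_option autoImplicit false
set_option linter.unusedSectionVars false

open Matrix

namespace Pool.Agent.T44.GL

open Pool.Agent.TH127.PT Pool.Agent.Y123.ST Pool.Agent.Y123.SR Pool.Agent.Y123.GN

variable {B₀ : Type} [Fintype B₀] [DecidableEq B₀] {n k : ℕ} {K : Subfield ℂ}

/-- the torsor of the polarisations -/
def RT (B₀ : Type) [Fintype B₀] [DecidableEq B₀] (k : ℕ) (J B : Matrix (Fin n) (Fin n) ℂ) (w : ℕ) :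
    Set (Matrix (I2 B₀ n k) (I2 B₀ n k) ℂ) :=
  {y | ∃ z : ℂ, z ≠ 0 ∧ ∃ X : Fin k → Matrix (Fin n) (Fin n) ℂ, y = E2 (z • (1 : Matrix B₀ B₀ ℂ)) X ∧
    ∀ l, X l * J * (X l)ᵀ = z ^ w • B}

/-- the blocks -/
def bX (y : Matrix (I2 B₀ n k) (I2 B₀ n k) ℂ) (i : Fin k) : Matrix (Fin n) (Fin n) ℂ :=
  y.submatrix (fun a => Sum.inr (a, i)) (fun a => Sum.inr (a, i))

theorem bX_E2 (x : Matrix B₀ B₀ ℂ) (X : Fin k → Matrix (Fin n) (Fin n) ℂ) : bX (E2 x X) = X := by
  funext i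
  ext a b
  show (blockDiagonal X) (a, i) (b, i) = _
  rw [blockDiagonal_apply_eq]

theorem E2_pol {M' : Type} [Fintype M'] [DecidableEq M'] {x : Matrix M' M' ℂ → Matrix B₀ B₀ ℂ}
    {X : Matrix M' M' ℂ → Fin k → Matrix (Fin n) (Fin n) ℂ} (hx : ∀ a b, Pol fun y => x y a b)
    (hX : ∀ i a b, Pol fun y => X y i a b) (p q : I2 B₀ n k) : Pol fun y => E2 (x y) (X y) p q := by
  rcases p with a | ⟨a, i⟩
  · rcases q with b | ⟨b, j⟩
    · exact hx a b
    · exact Pol.const 0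
  · rcases q with b | ⟨b, j⟩
    · exact Pol.const 0
    · by_cases h : i = j
      · subst h
        have h1 : ∀ y, E2 (x y) (X y) (Sum.inr (a, i)) (Sum.inr (b, i)) = X y i a b := by
          intro y
          show (blockDiagonal (X y)) (a, i) (b, i) = _
          rw [blockDiagonal_apply_eq]
        simp only [h1]
        exact hX i a b
      · have h1 : ∀ y, E2 (x y) (X y) (Sum.inr (a, i)) (Sum.inr (b, j)) = 0 := by
          intro y
          show (blockDiagonal (X y)) (a, i) (b, j) = _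
          exact blockDiagonal_apply_ne _ _ _ h
        simp only [h1]
        exact Pol.const 0

theorem unit_smul_one {z : ℂ} (hz : z ≠ 0) : IsUnit (z • (1 : Matrix B₀ B₀ ℂ)) := by
  have h1 : (z • (1 : Matrix B₀ B₀ ℂ)) * (z⁻¹ • (1 : Matrix B₀ B₀ ℂ)) = 1 := by
    rw [smul_mul_smul_comm, mul_inv_cancel₀ hz, one_smul, Matrix.one_mul]
  exact IsUnit.of_mul_eq_one _ h1

theorem inv_smul_one {z : ℂ} (hz : z ≠ 0) : (z • (1 : Matrix B₀ B₀ ℂ))⁻¹ = z⁻¹ • 1 := by
  refine inv_eq_right_inv ?_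
  rw [smul_mul_smul_comm, mul_inv_cancel₀ hz, one_smul, Matrix.one_mul]

variable {J B : Matrix (Fin n) (Fin n) ℂ} {w : ℕ}

theorem rt_unit (hB : B.det ≠ 0) : ∀ y ∈ RT B₀ k J B w, IsUnit y := by
  rintro _ ⟨z, hz, X, rfl, hX⟩
  exact E2_isUnit (unit_smul_one hz) fun j => (Matrix.isUnit_iff_isUnit_det _).1
    (unit_of_form (pow_ne_zero _ hz) hB (hX j))

theorem rt_sub [Nonempty B₀] (hB : B.det ≠ 0) (hJK : ∀ a b, J a b ∈ K) (hBK : ∀ a b, B a b ∈ K) :
    IsSubtorsor K (RT B₀ k J B w) := by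
  classical
  obtain ⟨b₀⟩ := ‹Nonempty B₀›
  have hne : Nonempty B₀ := ⟨b₀⟩
  refine sub_of (rt_unit hB) ?_ ?_ ?_
  · rintro _ ⟨x, hx, X, rfl, hX⟩ _ ⟨y, hy, Y, rfl, hY⟩ _ ⟨z, hz, Z, rfl, hZ⟩
    refine ⟨x * y⁻¹ * z, mul_ne_zero (mul_ne_zero hx (inv_ne_zero hy)) hz, fun i => X i * (Y i)⁻¹ * Z i, ?_, fun i => ?_⟩
    · rw [E2_inv (unit_smul_one hy) (fun i => (Matrix.isUnit_iff_isUnit_det _).1
        (unit_of_form (pow_ne_zero _ hy) hB (hY i))), E2_mul, E2_mul, inv_smul_one hy]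
      congr 1
      rw [smul_mul_smul_comm, smul_mul_smul_comm, Matrix.one_mul, Matrix.one_mul]
    · rw [form_tor (pow_ne_zero _ hy) hB (hX i) (hY i) (hZ i)]
      congr 1
      rw [mul_pow, mul_pow, inv_pow]
  · rintro σ hσ _ ⟨z, hz, X, rfl, hX⟩
    rw [E2_map]
    refine ⟨σ z, (map_ne_zero_iff σ σ.injective).2 hz, fun i => (X i).map σ, ?_, fun i => ?_⟩
    · congr 1
      ext a b
      rw [Matrix.map_apply, Matrix.smul_apply, Matrix.smul_apply, smul_eq_mul, smul_eq_mul, map_mul, Matrix.one_apply]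
      split_ifs <;> simp
    · have h4 := form_map hJK hBK hσ (hX i)
      rw [h4, map_pow]
  · intro y hu hF
    have hy : y = E2 (y (Sum.inl b₀) (Sum.inl b₀) • (1 : Matrix B₀ B₀ ℂ)) (bX y) := by
      ext a b
      have h1 := hF (fun y => y a b - E2 (y (Sum.inl b₀) (Sum.inl b₀) • (1 : Matrix B₀ B₀ ℂ)) (bX y) a b)
        ((Pol.coord a b).sub (E2_pol (fun c d => by
          simp only [Matrix.smul_apply, smul_eq_mul]
          exact Pol.mul (Pol.coord _ _) (Pol.const _)) (fun _ _ _ => Pol.coord _ _) a b)) (by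
        rintro _ ⟨z, hz, X, rfl, -⟩
        have h2 : E2 (z • (1 : Matrix B₀ B₀ ℂ)) X (Sum.inl b₀) (Sum.inl b₀) = z := by
          show (z • (1 : Matrix B₀ B₀ ℂ)) b₀ b₀ = z
          rw [Matrix.smul_apply, Matrix.one_apply_eq, smul_eq_mul, mul_one]
        rw [bX_E2, h2, sub_self])
      exact sub_eq_zero.1 h1
    set z := y (Sum.inl b₀) (Sum.inl b₀) with hz
    have hz0 : z ≠ 0 := by
      intro h0
      have h1 : (E2 (z • (1 : Matrix B₀ B₀ ℂ)) (bX y)).det = 0 := by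
        unfold E2
        rw [Matrix.det_fromBlocks_zero₂₁, h0, zero_smul, Matrix.det_zero, zero_mul]
      rw [← hy] at h1
      exact ((Matrix.isUnit_iff_isUnit_det _).1 hu).ne_zero h1
    refine ⟨z, hz0, bX y, hy, fun i => ?_⟩
    ext a b
    have h1 := hF (fun y => (∑ d, (∑ c, bX y i a c * J c d) * bX y i b d) - y (Sum.inl b₀) (Sum.inl b₀) ^ w * B a b) (by
      refine Pol.sub (Pol.sum _ fun d _ => Pol.mul (Pol.sum _ fun c _ => Pol.mul (Pol.coord _ _) (Pol.const _)) (Pol.coord _ _))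
        (Pol.mul (Pol.pow (Pol.coord _ _) _) (Pol.const _))) (by
      rintro _ ⟨x, hx, X, rfl, h3⟩
      have h4 := congrFun (congrFun (h3 i) a) b
      have h2 : E2 (x • (1 : Matrix B₀ B₀ ℂ)) X (Sum.inl b₀) (Sum.inl b₀) = x := by
        show (x • (1 : Matrix B₀ B₀ ℂ)) b₀ b₀ = x
        rw [Matrix.smul_apply, Matrix.one_apply_eq, smul_eq_mul, mul_one]
      rw [bX_E2, h2]
      simp only [Matrix.mul_apply, Matrix.transpose_apply, Matrix.smul_apply, smul_eq_mul] at h4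
      rw [h4, sub_self])
    simp only [Matrix.mul_apply, Matrix.transpose_apply, Matrix.smul_apply, smul_eq_mul]
    exact sub_eq_zero.1 h1

end Pool.Agent.T44.GL
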