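import Pool.Agent.T44.GL.Rl
import Pool.Agent.Y119.HY.Fin2

/-!
# Hypergeometric systems: the matrices and the Galois group
-/

set_option autoImplicit false

open PowerSeries

namespace Pool.Agent.T44.GL

open Pool.Agent.Y113 (ps SDc)
open Pool.Agent.Y119.HY (QD Am Jm cm E Hf Hc Yf Vr Rel Gal E_add E_zero E_mul_neg E_isom Lens mem_Lens real_mem_Lens
  slit_Lens preconn_Lens isOpen_Lens sol_c Ac_nil Hf_an)
open Pool.Agent.Y119.HZ (Hp Wp Wp_mul mul_Wp ode_int exists_b T1 A1 SDc_Wp ev_Hp Yt Yt_eq Yt_form)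
open Pool.Agent.T44.GF (Zm)

variable {n : ℕ} {Q : Polynomial ℚ}

/-- the residue, integral and transposed -/
def NZ (n : ℕ) : Matrix (Fin n) (Fin n) ℤ := Matrix.of fun i j => if (i : ℕ) = j + 1 then 1 else 0

theorem NZ_c : (NZ n).map (Int.castRingHom ℂ) = (cm (Am n)).transpose := by
  ext i j
  rw [Matrix.transpose_apply, Pool.Agent.Y119.HY.cm_apply, Matrix.map_apply]
  unfold NZ Am
  rw [Matrix.of_apply, Matrix.of_apply]
  split_ifs <;> simp

theorem NZ_pow : NZ n ^ n = 0 := by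
  have h1 : (NZ n).map (Int.castRingHom ℂ) ^ n = 0 := by
    rw [NZ_c, ← Matrix.transpose_pow, Ac_nil, Matrix.transpose_zero]
  have h2 := map_pow (RingHom.mapMatrix (Int.castRingHom ℂ)) (NZ n) n
  have h3 : RingHom.mapMatrix (Int.castRingHom ℂ) (NZ n ^ n) = 0 := h2.trans h1
  ext i j
  have h4 := congrFun (congrFun h3 i) j
  rw [RingHom.mapMatrix_apply, Matrix.map_apply, Matrix.zero_apply] at h4
  exact (map_eq_zero_iff (Int.castRingHom ℂ) Int.cast_injective).1 h4

theorem E_transpose (N : Matrix (Fin n) (Fin n) ℂ) (v : ℂ) : E N.transpose v = (E N v).transpose := by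
  unfold E
  rw [Matrix.transpose_sum]
  refine Finset.sum_congr rfl fun i _ => ?_
  rw [Matrix.transpose_smul, Matrix.transpose_pow]

/-- the period matrix is the transposed solution -/
theorem PL_hyp (Ω : Matrix (Fin n) (Fin n) ℂ) {x : ℝ} (hx : 0 < x) :
    PL Ω.transpose ((NZ n).map (Int.castRingHom ℂ)) (fun i j => Hp n Q j i) x =
      (Yf (cm (Am n)) (Hc n Q) ((1 / x : ℝ) : ℂ) * Ω).transpose := by
  have h1 : Zm (fun i j => Hp n Q j i) x = (Hf (Hc n Q) ((1 / x : ℝ) : ℂ)).transpose := by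
    ext i j
    rw [Matrix.transpose_apply, ← ev_Hp x j i]
    rfl
  have h2 : Complex.log ((1 / x : ℝ) : ℂ) = -((Real.log x : ℝ) : ℂ) := by
    rw [← Complex.ofReal_log (by positivity), one_div, Real.log_inv]
    push_cast
    rfl
  unfold PL Yf
  rw [NZ_c, E_transpose, h1, h2, Matrix.transpose_mul, Matrix.transpose_mul, Matrix.mul_assoc]

/-- the substitution for the relations -/
noncomputable def su (Ω : Matrix (Fin n) (Fin n) ℂ) : Option (Option (Fin n × Fin n)) → MvPolynomial (Vr n) ℂ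
  | none => MvPolynomial.X none
  | some none => -MvPolynomial.X (some none)
  | some (some p) => ∑ c, MvPolynomial.X (some (some (p.2, c))) * MvPolynomial.C (Ω c p.1)

theorem su_eval (Ω : Matrix (Fin n) (Fin n) ℂ) (F : MvPolynomial (Option (Option (Fin n × Fin n))) ℂ) (z L : ℂ)
    (M : Matrix (Fin n) (Fin n) ℂ) :
    Pool.Agent.Y119.HY.ev (MvPolynomial.aeval (su Ω) F) z L M = MvPolynomial.eval (pt z (-L) (M * Ω).transpose) F := by
  unfold Pool.Agent.Y119.HY.ev
  have h0 := Pool.Agent.Y123.GN.aeval_comp (su Ω) F (Pool.Agent.Y119.HY.pt z L M)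
  rw [MvPolynomial.aeval_eq_eval] at h0
  refine Eq.trans h0 ?_
  congr 2
  funext o
  rcases o with _ | _ | p
  · show MvPolynomial.aeval _ (MvPolynomial.X none) = _
    rw [MvPolynomial.aeval_X]
    rfl
  · show MvPolynomial.aeval _ (-MvPolynomial.X (some none)) = _
    rw [map_neg, MvPolynomial.aeval_X]
    rfl
  · show MvPolynomial.aeval _ (∑ c, _) = (M * Ω) p.2 p.1
    rw [map_sum, Matrix.mul_apply]
    refine Finset.sum_congr rfl fun c _ => ?_
    rw [map_mul, MvPolynomial.aeval_C, MvPolynomial.aeval_X]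
    rfl

/-- relations near zero hold on the whole interval -/
theorem rel_ext (hQ : QD n Q) {x₀ : ℝ} (hx₀ : 1 ≤ x₀) {P : MvPolynomial (Vr n) ℂ}
    (hP : ∀ x : ℝ, x₀ < x → Pool.Agent.Y119.HY.ev P ((1 / x : ℝ) : ℂ) (Complex.log ((1 / x : ℝ) : ℂ))
      (Yf (cm (Am n)) (Hc n Q) ((1 / x : ℝ) : ℂ)) = 0) : P ∈ Rel (Yf (cm (Am n)) (Hc n Q)) := by
  set f : ℂ → ℂ := fun z => Pool.Agent.Y119.HY.ev P z (Complex.log z) (Yf (cm (Am n)) (Hc n Q) z) with hf
  have hlog : AnalyticOnNhd ℂ Complex.log Lens := fun z hz => analyticAt_clog (slit_Lens hz)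
  have hE : ∀ i j, AnalyticOnNhd ℂ (fun z => E (cm (Am n)) (Complex.log z) i j) Lens := by
    intro i j
    unfold Pool.Agent.Y119.HY.E
    simp only [Matrix.sum_apply, Matrix.smul_apply, smul_eq_mul]
    refine Finset.analyticOnNhd_fun_sum _ fun l _ => ?_
    exact ((hlog.pow l).div_const).mul analyticOnNhd_const
  have hH : ∀ i j, AnalyticOnNhd ℂ (fun z => Hf (Hc n Q) z i j) Lens := fun i j =>
    (Hf_an (sol_c hQ) Ac_nil i j).mono Set.inter_subset_left
  have hpt : ∀ o, AnalyticOnNhd ℂ (fun z => Pool.Agent.Y119.HY.pt z (Complex.log z) (Yf (cm (Am n)) (Hc n Q) z) o) Lens := by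
    intro o
    rcases o with _ | _ | p
    · exact analyticOnNhd_id
    · exact hlog
    · show AnalyticOnNhd ℂ (fun z => Yf (cm (Am n)) (Hc n Q) z p.1 p.2) Lens
      unfold Yf
      simp only [Matrix.mul_apply]
      exact Finset.analyticOnNhd_fun_sum _ fun l _ => (hH _ _).mul (hE _ _)
  have han : AnalyticOnNhd ℂ f Lens := by
    rw [hf]
    unfold Pool.Agent.Y119.HY.ev
    clear hP hf f
    induction P using MvPolynomial.induction_on with
    | C a =>
      simp only [MvPolynomial.eval_C]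
      exact analyticOnNhd_const
    | add p q hp hq =>
      simp only [map_add]
      exact hp.add hq
    | mul_X p i hp =>
      simp only [map_mul, MvPolynomial.eval_X]
      exact hp.mul (hpt i)
  have hpos : (0 : ℝ) < x₀ := by linarith
  have hy0 : (0 : ℝ) < 1 / (2 * x₀) := by positivity
  have hy1 : 1 / (2 * x₀) < 1 / x₀ := one_div_lt_one_div_of_lt hpos (by linarith)
  have hx1 : 1 / x₀ ≤ 1 := by rw [div_le_one hpos]; exact hx₀
  have hev : ∀ᶠ y : ℝ in nhdsWithin (1 / (2 * x₀)) {(1 / (2 * x₀))}ᶜ, f (y : ℂ) = 0 := by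
    have h1 : ∀ᶠ y : ℝ in nhds (1 / (2 * x₀)), y ∈ Set.Ioo 0 (1 / x₀) := Ioo_mem_nhds hy0 hy1
    refine (h1.filter_mono nhdsWithin_le_nhds).mono fun y hy => ?_
    have h2 := hP (1 / y) (by
      have := (lt_div_iff₀ hpos).1 hy.2
      rw [lt_div_iff₀ hy.1]
      linarith)
    rw [one_div_one_div] at h2
    exact h2
  have hfr : ∃ᶠ z in nhdsWithin ((1 / (2 * x₀) : ℝ) : ℂ) {((1 / (2 * x₀) : ℝ) : ℂ)}ᶜ, f z = 0 := by
    refine Filter.Tendsto.frequently (f := fun y : ℝ => (y : ℂ)) ?_ hev.frequently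
    refine tendsto_nhdsWithin_iff.2 ⟨?_, ?_⟩
    · exact (Complex.continuous_ofReal.tendsto _).mono_left nhdsWithin_le_nhds
    · refine Filter.eventually_of_mem self_mem_nhdsWithin fun y hy => ?_
      rw [Set.mem_compl_iff, Set.mem_singleton_iff] at hy ⊢
      intro h
      exact hy (Complex.ofReal_injective h)
  have h0 := han.eqOn_zero_of_preconnected_of_frequently_eq_zero preconn_Lens
    (real_mem_Lens hy0 (by linarith)) hfr
  intro x hx hx1
  exact h0 (real_mem_Lens hx hx1)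

/-- **the Galois group contains the isometries** -/
theorem gal_hyp (hQ : QD n Q) {Ω g κ : Matrix (Fin n) (Fin n) ℂ} {x₀ : ℝ} (hx₀ : 1 ≤ x₀)
    (hκ : κ.transpose * cm (Jm n Q) * κ = cm (Jm n Q)) (hg : Ω * g.transpose = κ * Ω) :
    GalL Ω.transpose ((NZ n).map (Int.castRingHom ℂ)) (fun i j => Hp n Q j i) x₀ g := by
  intro F hF x hx
  have hlog : ∀ x : ℝ, 0 < x → Complex.log ((1 / x : ℝ) : ℂ) = -((Real.log x : ℝ) : ℂ) := by
    intro x hx
    rw [← Complex.ofReal_log (by positivity), one_div, Real.log_inv]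
    push_cast
    rfl
  have hx0 : 0 < x := by linarith
  have hrel : MvPolynomial.aeval (su Ω) F ∈ Rel (Yf (cm (Am n)) (Hc n Q)) := by
    refine rel_ext hQ hx₀ fun y hy => ?_
    have hy0 : 0 < y := by linarith
    have h1 := hF y hy
    rw [PL_hyp Ω hy0] at h1
    rw [su_eval, hlog y hy0, neg_neg]
    exact h1
  have h2 := Pool.Agent.Y119.HY.hyp_invar hQ κ hκ _ hrel (1 / x) (by positivity) (by
    rw [div_lt_one hx0]
    linarith)
  rw [su_eval] at h2
  have h3 : -Complex.log ((1 / x : ℝ) : ℂ) = ((Real.log x : ℝ) : ℂ) := by rw [hlog x hx0, neg_neg]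
  have h4 : g * PL Ω.transpose ((NZ n).map (Int.castRingHom ℂ)) (fun i j => Hp n Q j i) x =
      (Yf (cm (Am n)) (Hc n Q) ((1 / x : ℝ) : ℂ) * κ * Ω).transpose := by
    rw [PL_hyp Ω hx0, Matrix.mul_assoc, ← hg, ← Matrix.mul_assoc, Matrix.transpose_mul _ g.transpose,
      Matrix.transpose_transpose]
  rw [h4, ← h3]
  exact h2

end Pool.Agent.T44.GL
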