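import Pool.Agent.T44.GL.Vl
import Pool.Agent.T44.EF.Pol
import Pool.Agent.T44.GF.Gal
import Pool.Agent.Y119.J.Gen

/-!
# Systems near a degenerate fibre: the words in the entries and their relations
-/

set_option autoImplicit false
set_option linter.unusedSectionVars false

open PowerSeries

namespace Pool.Agent.T44.GL

open Pool.Agent.Y113 (ps SDc ev)
open Pool.Agent.Y120.GF Pool.Agent.Y120.GH Pool.Agent.Y124.TL Pool.Agent.Y119.HZ

variable {n : ℕ}

/-- a system with a nilpotent residue, of G-functions -/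
structure DatL (T : Polynomial ℤ) (A : Fin n → Fin n → Polynomial ℤ) (N : Matrix (Fin n) (Fin n) ℤ)
    (Z W : Matrix (Fin n) (Fin n) ℚ⟦X⟧) : Prop where
  ne : T ≠ 0
  nil : N ^ n = 0
  ode : ∀ i j, ps T * (X * d⁄dX ℚ (Z i j) + ∑ k, C (N i k : ℚ) * Z k j) = ∑ k, Z i k * ps (A k j)
  zero : ∀ i j, coeff 0 (Z i j) = if i = j then 1 else 0
  inv : W * Z = 1
  gZ : ∀ i j, SDc (Z i j)
  gW : ∀ i j, SDc (W i j)

/-- the entries as a family -/
noncomputable def hh (Z : Matrix (Fin n) (Fin n) ℚ⟦X⟧) (a : Fin (n * n)) : ℚ⟦X⟧ := Z (ix n a).2 (ix n a).1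

/-- the family of the entries of `Z` -/
theorem gfL {T : Polynomial ℤ} {A : Fin n → Fin n → Polynomial ℤ} {N : Matrix (Fin n) (Fin n) ℤ}
    {Z W : Matrix (Fin n) (Fin n) ℚ⟦X⟧} (h : DatL T A N Z W) :
    Pool.Agent.Y124.TL.GF (Polynomial.X * T)
      (fun a c => Pool.Agent.Y119.HZ.A3 T (fun i k => A k i) (fun i j => N j i) (ix n a) (ix n c)) (hh Z) := by
  obtain ⟨hT, hN, hode, hZ0, hW, hGZ, hGW⟩ := h
  set H : Matrix (Fin n) (Fin n) ℚ⟦X⟧ := Matrix.of fun i j => Z j i with hH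
  set W' : Matrix (Fin n) (Fin n) ℚ⟦X⟧ := Matrix.of fun i j => W j i with hW'
  set N' : Matrix (Fin n) (Fin n) ℚ := (N.transpose).map (Int.castRingHom ℚ) with hN'
  have hN0 : N' ^ n = 0 := by
    have h1 := map_pow (RingHom.mapMatrix (Int.castRingHom ℚ)) N.transpose n
    rw [← Matrix.transpose_pow, hN, Matrix.transpose_zero, map_zero] at h1
    exact h1.symm
  have hNz : ∀ i j, (((fun i j => N j i) i j : ℤ) : ℚ) = N' i j := fun i j => rfl
  have hHW : H * W' = 1 := by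
    funext i j
    have h1 : (W * Z) j i = (1 : Matrix (Fin n) (Fin n) ℚ⟦X⟧) j i := by rw [hW]
    rw [Matrix.mul_apply] at h1 ⊢
    rw [Matrix.one_apply] at h1 ⊢
    have h2 : (if i = j then (1 : ℚ⟦X⟧) else 0) = if j = i then 1 else 0 := by
      simp only [eq_comm]
    rw [h2, ← h1]
    exact Finset.sum_congr rfl fun k _ => mul_comm _ _
  have h0 : ∀ i j, coeff 0 (H i j) = if i = j then 1 else 0 := by
    intro i j
    have h2 : (if i = j then (1 : ℚ) else 0) = if j = i then 1 else 0 := by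
      simp only [eq_comm]
    rw [h2]
    exact hZ0 j i
  have hode' : ∀ i j, ps T * (X * d⁄dX ℚ (H i j) + ∑ k, H i k * C (N' k j)) = ∑ k, ps ((fun i k => A k i) i k) * H k j := by
    intro i j
    have h1 := hode j i
    have h2 : ∑ k, H i k * C (N' k j) = ∑ k, C (N j k : ℚ) * Z k i := Finset.sum_congr rfl fun k _ => mul_comm _ _
    have h3 : ∑ k, ps ((fun i k => A k i) i k) * H k j = ∑ k, Z j k * ps (A k i) :=
      Finset.sum_congr rfl fun k _ => mul_comm _ _
    rw [h2, h3, ← h1]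
    rfl
  have hHs : ∀ i j, SDc (H i j) := fun i j => hGZ j i
  have hWs : ∀ i j, SDc (W' i j) := fun i j => hGW j i
  obtain ⟨q, C, hGS⟩ := gsysL hN0 hHW hode' hHs hWs
  refine ⟨mul_ne_zero Polynomial.X_ne_zero hT, fun i => ?_, ⟨q, C, hGS.reindex (ix n)⟩, qu_gen hN0 hNz h0 hode' hHs⟩
  have h1 := ode_A3 hNz hode' (ix n i)
  have h2 : ∑ j : Fin (n * n), ps (A3 T (fun i k => A k i) (fun i j => N j i) (ix n i) (ix n j)) *
      H (ix n j).1 (ix n j).2 = ∑ q, ps (A3 T (fun i k => A k i) (fun i j => N j i) (ix n i) q) * H q.1 q.2 :=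
    Equiv.sum_comp (ix n) fun q => ps (A3 T (fun i k => A k i) (fun i j => N j i) (ix n i) q) * H q.1 q.2
  exact h1.trans h2.symm

/-- the entries of a point -/
def zh (z : Option (Fin n × Fin n) → ℂ) (a : Fin (n * n)) : ℂ := z (some ((ix n a).2, (ix n a).1))

/-- the word of a monomial -/
def wo (D0 : ℕ) (s : Option (Fin n × Fin n) → ℕ) : Fin ((n * n + 1) * D0) → Option (Fin (n * n)) :=
  wP (id : Fin (n * n) → Fin (n * n)) (N := D0) fun a => ⟨min (s (some ((ix n a).2, (ix n a).1))) D0, by omega⟩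

/-- monomials as words -/
theorem mono_word {D0 : ℕ} (z : Option (Fin n × Fin n) → ℂ) (s : Option (Fin n × Fin n) → ℕ) (hs : ∑ v, s v ≤ D0) :
    ∏ v, z v ^ s v = z none ^ s none * yw (zh z) (wo D0 s) := by
  rw [Fintype.prod_option]
  congr 1
  unfold wo
  rw [yw_wP]
  have h1 : ∀ p : Fin n × Fin n, s (some p) ≤ D0 := fun p =>
    (Finset.single_le_sum (f := s) (fun _ _ => Nat.zero_le _) (Finset.mem_univ (some p))).trans hs
  have h2 : ∀ a : Fin (n * n), zh z (id a) ^ (((⟨min (s (some ((ix n a).2, (ix n a).1))) D0, by omega⟩ : Fin (D0 + 1)) : ℕ)) =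
      z (some ((ix n a).2, (ix n a).1)) ^ s (some ((ix n a).2, (ix n a).1)) := by
    intro a
    have h3 : (((⟨min (s (some ((ix n a).2, (ix n a).1))) D0, by omega⟩ : Fin (D0 + 1)) : ℕ)) =
        s (some ((ix n a).2, (ix n a).1)) := min_eq_left (h1 _)
    rw [h3]
    rfl
  rw [Finset.prod_congr rfl fun a _ => h2 a]
  exact (Equiv.prod_comp ((ix n).trans (Equiv.prodComm _ _)) fun p => z (some p) ^ s (some p)).symm

end Pool.Agent.T44.GL
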