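import Pool.Agent.T44.GL.Gm
import Pool.Agent.T44.GF.Main

/-!
# Fibres near a degenerate fibre with few periods: the theorem
-/

set_option autoImplicit false
set_option linter.unusedSectionVars false

open PowerSeries

namespace Pool.Agent.T44.GL

open Pool.Agent.Y113 (ps SDc ev)
open Pool.Agent.Y120.GF Pool.Agent.Y120.GH Pool.Agent.Y124.TL Pool.Agent.Y119.HZ Pool.Agent.T44.GF Pool.Agent.T44.EF
open Pool.Agent.TH127.PT Pool.Agent.Y123.ST Pool.Agent.Y123.SR Pool.Agent.TH119.DR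
open Pool.Agent.Y123.GN (EG Perf)
open Pool.Agent.Y119.HY (E Ep Ep_eval E_add E_zero E_mul_neg)

variable {n k : ℕ}

/-- left multiplication -/
noncomputable def s1 (g : Matrix (Fin n) (Fin n) ℂ) : Option (Option (Fin n × Fin n)) →
    MvPolynomial (Option (Option (Fin n × Fin n))) ℂ
  | none => MvPolynomial.X none
  | some none => MvPolynomial.X (some none)
  | some (some p) => ∑ a, MvPolynomial.C (g p.1 a) * MvPolynomial.X (some (some (a, p.2)))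

theorem s1_eval (g : Matrix (Fin n) (Fin n) ℂ) (z v : ℂ) (M : Matrix (Fin n) (Fin n) ℂ)
    (F : MvPolynomial (Option (Option (Fin n × Fin n))) ℂ) :
    MvPolynomial.eval (pt z v M) (MvPolynomial.aeval (s1 g) F) = MvPolynomial.eval (pt z v (g * M)) F := by
  have h0 := Pool.Agent.Y123.GN.aeval_comp (s1 g) F (pt z v M)
  rw [MvPolynomial.aeval_eq_eval] at h0
  refine Eq.trans h0 ?_
  have h1 : ∀ o, MvPolynomial.eval (pt z v M) (s1 g o) = pt z v (g * M) o := by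
    rintro (_ | _ | p)
    · exact MvPolynomial.eval_X _
    · exact MvPolynomial.eval_X _
    · have h2 : s1 g (some (some p)) = ∑ a, MvPolynomial.C (g p.1 a) * MvPolynomial.X (some (some (a, p.2))) := rfl
      have h3 : pt z v (g * M) (some (some p)) = (g * M) p.1 p.2 := rfl
      rw [h2, h3, map_sum, Matrix.mul_apply]
      refine Finset.sum_congr rfl fun a _ => ?_
      rw [map_mul, MvPolynomial.eval_C, MvPolynomial.eval_X]
      rfl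
  exact congrArg (fun w => MvPolynomial.eval w F) (funext h1)

theorem galL_one {Ω Nc : Matrix (Fin n) (Fin n) ℂ} {Z : Fin n → Fin n → PowerSeries ℚ} {x₀ : ℝ} : GalL Ω Nc Z x₀ 1 := by
  intro F hF x hx
  rw [Matrix.one_mul]
  exact hF x hx

theorem galL_mul {Ω Nc : Matrix (Fin n) (Fin n) ℂ} {Z : Fin n → Fin n → PowerSeries ℚ} {x₀ : ℝ}
    {g h : Matrix (Fin n) (Fin n) ℂ} (hg : GalL Ω Nc Z x₀ g) (hh : GalL Ω Nc Z x₀ h) : GalL Ω Nc Z x₀ (g * h) := by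
  intro F hF x hx
  have h2 := hh (MvPolynomial.aeval (s1 g) F) (fun x hx => by
    rw [s1_eval]
    exact hg F hF x hx) x hx
  rw [s1_eval, ← Matrix.mul_assoc] at h2
  exact h2

theorem galL_EG {Ω Nc : Matrix (Fin n) (Fin n) ℂ} {Z : Fin n → Fin n → PowerSeries ℚ} {x₀ : ℝ}
    {𝒩 : Set (Matrix (Fin n) (Fin n) ℂ)} (h𝒩 : ∀ N ∈ 𝒩, ∀ t : ℂ, GalL Ω Nc Z x₀ (IsNilpotent.exp (t • N)))
    {g : Matrix (Fin n) (Fin n) ℂ} (hg : g ∈ EG 𝒩) : GalL Ω Nc Z x₀ g := by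
  unfold EG at hg
  induction hg using Submonoid.closure_induction with
  | mem u hu =>
    obtain ⟨N, hN, t, rfl⟩ := hu
    exact h𝒩 N hN t
  | one => exact galL_one
  | mul a b _ _ ha hb => exact galL_mul ha hb

/-- **all tuples in windows** -/
theorem gen_allL (hNo : S_NORM) {T : Polynomial ℤ} {A : Fin n → Fin n → Polynomial ℤ} {N : Matrix (Fin n) (Fin n) ℤ}
    {Z W : Matrix (Fin n) (Fin n) ℚ⟦X⟧} (h : DatL T A N Z W) :
    ∃ x₀ R : ℕ, 1 ≤ x₀ ∧ ∀ δ D k : ℕ, ∃ E₀ : ℕ, ∀ H t : ℕ, (H + 2) ^ E₀ ≤ t → H < t ∧ ∀ g : Fin k → ℕ, SepR R g → (∀ l, g l ≤ H) →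
      (∀ l, (x₀ : ℝ) < ((t - g l : ℕ) : ℝ)) ∧ ∀ Ω Θ : Matrix (Fin n) (Fin n) ℂ, Θ * Ω = 1 →
        ∀ 𝒩 : Set (Matrix (Fin n) (Fin n) ℂ), (∀ N' ∈ 𝒩, IsNilpotent N') →
        (∀ N' ∈ 𝒩, ∀ t : ℂ, GalL Ω (N.map (Int.castRingHom ℂ)) Z x₀ (IsNilpotent.exp (t • N'))) →
        GenG (EG 𝒩) (Ω * E (N.map (Int.castRingHom ℂ)) (-((Real.log t : ℝ) : ℂ)))
          (E (N.map (Int.castRingHom ℂ)) ((Real.log t : ℝ) : ℂ) * Θ)
          (fun l => E (N.map (Int.castRingHom ℂ)) (-((Real.log (1 - g l / t) : ℝ) : ℂ)) * Zm Z ((t - g l : ℕ) : ℝ)) δ D := by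
  have hNn : (N.map (Int.castRingHom ℂ)) ^ n = 0 := by
    have h1 := map_pow (RingHom.mapMatrix (Int.castRingHom ℂ)) N n
    rw [h.nil, map_zero] at h1
    exact h1.symm
  obtain ⟨x₀, R, hx₀, hmain⟩ := ratQL h
  refine ⟨x₀, R, hx₀, fun δ D k => ?_⟩
  obtain ⟨δ', hδ'⟩ := hNo D δ
  obtain ⟨E₀, hE⟩ := hmain δ' k
  refine ⟨E₀, fun H t ht => ?_⟩
  obtain ⟨hHt, h1⟩ := hE H t ht
  refine ⟨hHt, fun g hg hgH => ?_⟩
  obtain ⟨h2, h3⟩ := h1 g hg hgH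
  refine ⟨h2, fun Ω Θ hΘ 𝒩 hnil hgal K hK hKD P hP hd h0 γ hγ => ?_⟩
  set Nc : Matrix (Fin n) (Fin n) ℂ := N.map (Int.castRingHom ℂ) with hNc
  set Ωt : Matrix (Fin n) (Fin n) ℂ := Ω * E Nc (-((Real.log t : ℝ) : ℂ)) with hΩt
  set Θt : Matrix (Fin n) (Fin n) ℂ := E Nc ((Real.log t : ℝ) : ℂ) * Θ with hΘt
  have hΘΩt : Θt * Ωt = 1 := by
    calc Θt * Ωt = E Nc ((Real.log t : ℝ) : ℂ) * (Θ * Ω) * E Nc (-((Real.log t : ℝ) : ℂ)) := by
          rw [hΘt, hΩt]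
          simp only [Matrix.mul_assoc]
      _ = 1 := by rw [hΘ, Matrix.mul_one, E_mul_neg hNn]
  set y : Fin k → Matrix (Fin n) (Fin n) ℂ := fun l => E Nc (-((Real.log (1 - g l / t) : ℝ) : ℂ)) *
    Zm Z ((t - g l : ℕ) : ℝ) with hy
  refine hδ' (Fin k × (Fin n × Fin n)) (cf y) {z | ∃ γ : Fin k → Matrix (Fin n) (Fin n) ℂ, (∀ l, γ l ∈ EG 𝒩) ∧
    z = cf fun l => Θt * γ l * Ωt * y l} ⟨fun _ => 1, fun _ => Submonoid.one_mem _, ?_⟩ ?_ ?_ K hK hKD P hP hd h0 _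
      ⟨γ, hγ, rfl⟩
  · congr 1
    funext l
    rw [Matrix.mul_one, hΘΩt, Matrix.one_mul]
  · intro P Q hPQ
    rcases irrG hnil Ωt Θt y P Q (fun g hg => hPQ _ ⟨g, hg, rfl⟩) with h4 | h4
    · left
      rintro _ ⟨g, hg, rfl⟩
      exact h4 g hg
    · right
      rintro _ ⟨g, hg, rfl⟩
      exact h4 g hg
  · rintro P hP hd h0 _ ⟨g', hg', rfl⟩
    exact h3 P hP hd h0 Ω Θ hΘ g' fun l => galL_EG hgal (hg' l)

end Pool.Agent.T44.GL
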