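import Pool.Agent.T44.GL.Rl

/-!
# Relations over the rational numbers at all tuples in windows near a degenerate fibre
-/

set_option autoImplicit false
set_option linter.unusedSectionVars false

open PowerSeries

namespace Pool.Agent.T44.GL

open Pool.Agent.Y113 (ps SDc ev)
open Pool.Agent.Y120.GF Pool.Agent.Y120.GH Pool.Agent.Y124.TL Pool.Agent.Y119.HZ Pool.Agent.T44.GF Pool.Agent.T44.EF
open Pool.Agent.Y123.ST (PK PK_C PK_X PK_coeff)
open Pool.Agent.Y119.HY (E Ep Ep_eval E_add E_zero E_mul_neg)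

variable {n k : ℕ}

theorem PK_of {K : Subfield ℂ} {σ : Type} {P : MvPolynomial σ ℂ} (h : ∀ m, P.coeff m ∈ K) : P ∈ PK K σ := by
  classical
  rw [P.as_sum]
  refine Subring.sum_mem _ fun m _ => ?_
  rw [MvPolynomial.monomial_eq]
  exact (PK K σ).mul_mem (PK_C (h m)) (Subring.prod_mem _ fun i _ => Subring.pow_mem _ (PK_X i) _)

/-- substitutions of polynomials of bounded degree -/
theorem Bd.comp {K : Subfield ℂ} {σ τ : Type} [Fintype σ] {d e : ℕ} {P : MvPolynomial σ ℂ} (hP : Bd K d P)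
    {s : σ → MvPolynomial τ ℂ} (hs : ∀ i, Bd K e (s i)) : Bd K (d * e) (MvPolynomial.aeval s P) := by
  classical
  rw [MvPolynomial.aeval_def, MvPolynomial.eval₂_eq']
  refine Bd.sum _ fun m hm => ?_
  have h1 : Bd K 0 (algebraMap ℂ (MvPolynomial τ ℂ) (P.coeff m)) := Bd.C (PK_coeff hP.1 m)
  have h2 := Bd.prod (K := K) Finset.univ (e := fun i => m i * e) (P := fun i => s i ^ m i) fun i _ => (hs i).pow (m i)
  have h3 := h1.mul h2
  refine h3.mono ?_
  rw [zero_add, ← Finset.sum_mul]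
  refine Nat.mul_le_mul_right _ ?_
  refine le_trans ?_ ((MvPolynomial.le_totalDegree hm).trans hP.2)
  rw [Finsupp.sum_fintype _ _ (fun _ => rfl)]

/-- the matrices with the logarithms -/
noncomputable def sq (Nc : Matrix (Fin n) (Fin n) ℂ) (v : Fin k × (Fin n × Fin n)) :
    MvPolynomial (Fin k × Option (Fin n × Fin n)) ℂ :=
  ∑ c, (Polynomial.aeval (-MvPolynomial.X (v.1, none)) (Ep Nc v.2.1 c)) * MvPolynomial.X (v.1, some (c, v.2.2))

theorem eval_q {τ : Type} (z : τ → ℂ) (p : MvPolynomial τ ℂ) (q : Polynomial ℂ) :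
    MvPolynomial.eval z (Polynomial.aeval p q) = q.eval (MvPolynomial.eval z p) := by
  have h1 := Polynomial.aeval_algHom_apply (MvPolynomial.aeval z : MvPolynomial τ ℂ →ₐ[ℂ] ℂ) p q
  rw [Polynomial.coe_aeval_eq_eval] at h1
  exact h1.symm

theorem sq_eval (Nc : Matrix (Fin n) (Fin n) ℂ) (L : Fin k → ℂ) (M : Fin k → Matrix (Fin n) (Fin n) ℂ)
    (P : MvPolynomial (Fin k × (Fin n × Fin n)) ℂ) :
    MvPolynomial.eval (fun x : Fin k × Option (Fin n × Fin n) => p1 (L x.1) (M x.1) x.2) (MvPolynomial.aeval (sq Nc) P) =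
      MvPolynomial.eval (cf fun l => E Nc (-L l) * M l) P := by
  have h0 := Pool.Agent.Y123.GN.aeval_comp (sq (k := k) Nc) P
    (fun x : Fin k × Option (Fin n × Fin n) => p1 (L x.1) (M x.1) x.2)
  rw [MvPolynomial.aeval_eq_eval] at h0
  refine Eq.trans h0 ?_
  congr 2
  funext v
  show MvPolynomial.eval _ (∑ c, _) = (E Nc (-L v.1) * M v.1) v.2.1 v.2.2
  rw [map_sum, Matrix.mul_apply]
  refine Finset.sum_congr rfl fun c _ => ?_
  rw [map_mul, MvPolynomial.eval_X, eval_q, map_neg, MvPolynomial.eval_X, ← Ep_eval, Matrix.map_apply]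
  rfl

/-- the coefficients are rational -/
theorem sq_Bd {N : Matrix (Fin n) (Fin n) ℤ} (v : Fin k × (Fin n × Fin n)) :
    Bd ⊥ n (sq (N.map (Int.castRingHom ℂ)) v) := by
  unfold sq
  refine Bd.sum _ fun c _ => ?_
  have hn : n - 1 + 1 = n := by
    have := c.2
    omega
  have h1 : Bd ⊥ (n - 1) (Polynomial.aeval (-MvPolynomial.X (v.1, none) : MvPolynomial (Fin k × Option (Fin n × Fin n)) ℂ)
      (Ep (N.map (Int.castRingHom ℂ)) v.2.1 c)) := by
    unfold Ep
    rw [Matrix.sum_apply, map_sum]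
    refine Bd.sum _ fun i hi => ?_
    rw [Finset.mem_range] at hi
    rw [Matrix.smul_apply, Matrix.map_apply, smul_eq_mul, map_mul, map_mul, Polynomial.aeval_C, Polynomial.aeval_C, map_pow,
      Polynomial.aeval_X]
    have h2 : (N.map (Int.castRingHom ℂ)) ^ i = (N ^ i).map (Int.castRingHom ℂ) :=
      (map_pow (RingHom.mapMatrix (Int.castRingHom ℂ)) N i).symm
    have h3 : Bd ⊥ 0 (algebraMap ℂ (MvPolynomial (Fin k × Option (Fin n × Fin n)) ℂ) (1 / (i.factorial : ℂ))) := by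
      refine Bd.C ?_
      exact (⊥ : Subfield ℂ).div_mem (one_mem _) (natCast_mem _ _)
    have h4 : Bd ⊥ 0 (algebraMap ℂ (MvPolynomial (Fin k × Option (Fin n × Fin n)) ℂ)
        (((N.map (Int.castRingHom ℂ)) ^ i) v.2.1 c)) := by
      refine Bd.C ?_
      rw [h2]
      exact intCast_mem _ _
    have h5 : Bd ⊥ 1 (-MvPolynomial.X (v.1, none) : MvPolynomial (Fin k × Option (Fin n × Fin n)) ℂ) := by
      have h6 := (Bd.zero (K := ⊥) (e := 1)).sub (Bd.X (K := (⊥ : Subfield ℂ)) ((v.1, none) : Fin k × Option (Fin n × Fin n)))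
      rwa [zero_sub] at h6
    refine ((h3.mul (h5.pow i)).mul h4).mono ?_
    omega
  exact (h1.mul (Bd.X _)).mono hn.le

end Pool.Agent.T44.GL
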