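import Pool.Agent.T44.GL.Dt

/-!
# The relations between the words at the values and at their conjugates under the Galois group
-/

set_option autoImplicit false
set_option linter.unusedSectionVars false

open PowerSeries

namespace Pool.Agent.T44.GL

open Pool.Agent.Y113 (ps SDc ev)
open Pool.Agent.Y120.GF Pool.Agent.Y120.GH Pool.Agent.Y124.TL Pool.Agent.Y119.HZ Pool.Agent.T44.GF
open Pool.Agent.Y119.HY (E Ep Ep_eval E_add E_zero E_mul_neg)

variable {n : ℕ}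

/-- the period matrix -/
noncomputable def PL (Ω Nc : Matrix (Fin n) (Fin n) ℂ) (Z : Fin n → Fin n → PowerSeries ℚ) (x : ℝ) :
    Matrix (Fin n) (Fin n) ℂ := Ω * E Nc (-((Real.log x : ℝ) : ℂ)) * Zm Z x

/-- points -/
def pt (z v : ℂ) (M : Matrix (Fin n) (Fin n) ℂ) (o : Option (Option (Fin n × Fin n))) : ℂ :=
  o.elim z fun o => o.elim v fun p => M p.1 p.2

/-- `g` transforms relations over `ℂ(x, log x)` into relations -/
def GalL (Ω Nc : Matrix (Fin n) (Fin n) ℂ) (Z : Fin n → Fin n → PowerSeries ℚ) (x₀ : ℝ) (g : Matrix (Fin n) (Fin n) ℂ) : Prop :=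
  ∀ F : MvPolynomial (Option (Option (Fin n × Fin n))) ℂ,
    (∀ x : ℝ, x₀ < x → MvPolynomial.eval (pt ((1 / x : ℝ) : ℂ) ((Real.log x : ℝ) : ℂ) (PL Ω Nc Z x)) F = 0) →
    ∀ x : ℝ, x₀ < x → MvPolynomial.eval (pt ((1 / x : ℝ) : ℂ) ((Real.log x : ℝ) : ℂ) (g * PL Ω Nc Z x)) F = 0

/-- points -/
def p1 (z : ℂ) (M : Matrix (Fin n) (Fin n) ℂ) (o : Option (Fin n × Fin n)) : ℂ := o.elim z fun p => M p.1 p.2

/-- the substitution -/
noncomputable def sl (Nc Θ : Matrix (Fin n) (Fin n) ℂ) : Option (Fin n × Fin n) → MvPolynomial (Option (Option (Fin n × Fin n))) ℂ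
  | none => MvPolynomial.X none
  | some p => ∑ c, (Polynomial.aeval (MvPolynomial.X (some none)) (Ep Nc p.1 c)) *
      ∑ d, MvPolynomial.C (Θ c d) * MvPolynomial.X (some (some (d, p.2)))

theorem eval_poly (z : Option (Option (Fin n × Fin n)) → ℂ) (q : Polynomial ℂ) :
    MvPolynomial.eval z (Polynomial.aeval (MvPolynomial.X (some none)) q) = q.eval (z (some none)) := by
  have h1 := Polynomial.aeval_algHom_apply (MvPolynomial.aeval z : MvPolynomial (Option (Option (Fin n × Fin n))) ℂ →ₐ[ℂ] ℂ)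
    (MvPolynomial.X (some none)) q
  rw [MvPolynomial.aeval_X, Polynomial.coe_aeval_eq_eval] at h1
  rw [h1]
  rfl

theorem sl_eval (Nc Θ : Matrix (Fin n) (Fin n) ℂ) (z v : ℂ) (M : Matrix (Fin n) (Fin n) ℂ)
    (G : MvPolynomial (Option (Fin n × Fin n)) ℂ) :
    MvPolynomial.eval (pt z v M) (MvPolynomial.aeval (sl Nc Θ) G) = MvPolynomial.eval (p1 z (E Nc v * Θ * M)) G := by
  have h0 := Pool.Agent.Y123.GN.aeval_comp (sl Nc Θ) G (pt z v M)
  rw [MvPolynomial.aeval_eq_eval] at h0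
  refine Eq.trans h0 ?_
  congr 2
  funext o
  rcases o with _ | p
  · show MvPolynomial.aeval _ (MvPolynomial.X none) = _
    rw [MvPolynomial.aeval_X]
    rfl
  · show MvPolynomial.aeval _ (∑ c, _ * ∑ d, _) = (E Nc v * Θ * M) p.1 p.2
    rw [Matrix.mul_assoc, Matrix.mul_apply, map_sum]
    refine Finset.sum_congr rfl fun c _ => ?_
    rw [map_mul, map_sum, Matrix.mul_apply]
    congr 1
    · rw [← Ep_eval, Matrix.map_apply]
      exact eval_poly (pt z v M) (Ep Nc p.1 c)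
    · refine Finset.sum_congr rfl fun d _ => ?_
      rw [map_mul, MvPolynomial.aeval_C, MvPolynomial.aeval_X]
      rfl

/-- the holomorphic parts -/
theorem gal_hol {Ω Θ Nc : Matrix (Fin n) (Fin n) ℂ} (hN : Nc ^ n = 0) (hΘ : Θ * Ω = 1)
    {Z : Fin n → Fin n → PowerSeries ℚ} {x₀ : ℝ} {g : Matrix (Fin n) (Fin n) ℂ} (hg : GalL Ω Nc Z x₀ g)
    (G : MvPolynomial (Option (Fin n × Fin n)) ℂ)
    (hG : ∀ x : ℝ, x₀ < x → MvPolynomial.eval (p1 ((1 / x : ℝ) : ℂ) (Zm Z x)) G = 0) (x : ℝ) (hx : x₀ < x) :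
    MvPolynomial.eval (p1 ((1 / x : ℝ) : ℂ) (E Nc ((Real.log x : ℝ) : ℂ) * Θ * g * Ω *
      E Nc (-((Real.log x : ℝ) : ℂ)) * Zm Z x)) G = 0 := by
  have h1 := hg (MvPolynomial.aeval (sl Nc Θ) G) (fun x hx => by
    rw [sl_eval]
    have h2 : E Nc ((Real.log x : ℝ) : ℂ) * Θ * PL Ω Nc Z x = Zm Z x := by
      unfold PL
      calc E Nc ((Real.log x : ℝ) : ℂ) * Θ * (Ω * E Nc (-((Real.log x : ℝ) : ℂ)) * Zm Z x) =
          E Nc ((Real.log x : ℝ) : ℂ) * (Θ * Ω) * E Nc (-((Real.log x : ℝ) : ℂ)) * Zm Z x := by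
            simp only [Matrix.mul_assoc]
        _ = _ := by rw [hΘ, Matrix.mul_one, E_mul_neg hN, Matrix.one_mul]
    rw [h2]
    exact hG x hx) x hx
  rw [sl_eval] at h1
  rw [← h1]
  congr 2
  unfold PL
  simp only [Matrix.mul_assoc]

/-- the entries as unknowns -/
noncomputable def xs (a : Fin (n * n)) : MvPolynomial (Option (Fin n × Fin n)) ℂ := MvPolynomial.X (some ((ix n a).2, (ix n a).1))

theorem eval_yw {δ : ℕ} (z : Option (Fin n × Fin n) → ℂ) (b : Fin δ → Option (Fin (n * n))) :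
    MvPolynomial.eval z (yw xs b) = yw (zh z) b := by
  unfold yw
  rw [map_prod]
  refine Finset.prod_congr rfl fun j _ => ?_
  rcases b j with _ | i
  · exact map_one _
  · exact MvPolynomial.eval_X _

/-- the value of a polynomial at `1/x` -/
noncomputable def cv (P : Polynomial ℤ) (z : ℂ) : ℂ := (P.map (Int.castRingHom ℂ)).eval z

/-- the polynomial in the first unknown -/
noncomputable def px (P : Polynomial ℤ) : MvPolynomial (Option (Fin n × Fin n)) ℂ :=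
  Polynomial.aeval (MvPolynomial.X none) (P.map (Int.castRingHom ℂ))

theorem eval_px (P : Polynomial ℤ) (z : Option (Fin n × Fin n) → ℂ) : MvPolynomial.eval z (px P) = cv P (z none) := by
  have h1 := Polynomial.aeval_algHom_apply (MvPolynomial.aeval z : MvPolynomial (Option (Fin n × Fin n)) ℂ →ₐ[ℂ] ℂ)
    (MvPolynomial.X none) (P.map (Int.castRingHom ℂ))
  rw [MvPolynomial.aeval_X, Polynomial.coe_aeval_eq_eval] at h1
  unfold cv px
  rw [h1]
  rfl

theorem cv_real (P : Polynomial ℤ) (z : ℝ) :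
    cv P ((z : ℝ) : ℂ) = ((Polynomial.aeval z (P.map (Int.castRingHom ℚ)) : ℝ) : ℂ) := by
  unfold cv
  induction P using Polynomial.induction_on' with
  | add p q hp hq => simp only [Polynomial.map_add, Polynomial.eval_add, map_add, hp, hq, Complex.ofReal_add]
  | monomial m a => simp [Polynomial.aeval_monomial]

theorem cv_rat (P : Polynomial ℤ) (m : ℕ) :
    cv P (((1 / (m : ℝ) : ℝ)) : ℂ) = (((P.map (Int.castRingHom ℚ)).eval (1 / (m : ℚ)) : ℚ) : ℂ) := by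
  unfold cv
  induction P using Polynomial.induction_on' with
  | add p q hp hq => simp only [Polynomial.map_add, Polynomial.eval_add, hp, hq, Rat.cast_add]
  | monomial m a => simp

theorem sr_ps (P : Polynomial ℤ) (r : ℝ) : Pool.Agent.Y37.GF.SR r (ps P) :=
  Pool.Agent.Y37.GF.SR.poly (P.map (Int.castRingHom ℚ)) r

theorem E_ps (P : Polynomial ℤ) (z : ℝ) : ((Pool.Agent.Y37.GF.E (ps P) z : ℝ) : ℂ) = cv P (z : ℂ) := by
  rw [cv_real, ← Pool.Agent.Y37.GF.E_poly]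
  rfl

theorem val_one {r δ : ℕ} {h : Fin r → ℚ⟦X⟧} {C : ℝ} (hC : 1 ≤ C)
    (hh' : ∀ i m, |((coeff m (h i) : ℚ) : ℝ)| ≤ C ^ (m + 1)) {x : ℝ} (hx : C < x) (P : Polynomial ℤ)
    (w : Fin δ → Option (Fin r)) :
    ((Pool.Agent.Y37.GF.E (ps P * yw h w) (1 / x) : ℝ) : ℂ) = cv P ((1 / x : ℝ) : ℂ) * yw (hv h x) w := by
  have hx0 : 0 < x := by linarith
  have hz : |1 / x| ≤ 1 / x := by rw [abs_of_pos (by positivity)]
  rw [Pool.Agent.Y37.GF.E_mul (sr_ps P (1 / x)) (ev_ywE hC hh' w hx) hz, Complex.ofReal_mul, E_ps]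
  congr 1
  exact ev_yw hC hh' w hx

/-- relations between the words at the values -/
theorem val_rel {r δ : ℕ} {h : Fin r → ℚ⟦X⟧} {C : ℝ} (hC : 1 ≤ C)
    (hh' : ∀ i m, |((coeff m (h i) : ℚ) : ℝ)| ≤ C ^ (m + 1)) {B : Finset (Fin δ → Option (Fin r))} {a : Polynomial ℤ}
    {M : B → Polynomial ℤ} {b : Fin δ → Option (Fin r)} (hM : ps a * yw h b = ∑ β, ps (M β) * yw h β.1) {x : ℝ}
    (hx : C < x) : cv a ((1 / x : ℝ) : ℂ) * yw (hv h x) b = ∑ β, cv (M β) ((1 / x : ℝ) : ℂ) * yw (hv h x) β.1 := by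
  have hx0 : 0 < x := by linarith
  have hz : |1 / x| ≤ 1 / x := by rw [abs_of_pos (by positivity)]
  have h0 : (0 : ℝ) ≤ 1 / x := by positivity
  have h1 : Pool.Agent.Y37.GF.E (∑ β, ps (M β) * yw h β.1) (1 / x) =
      ∑ β, Pool.Agent.Y37.GF.E (ps (M β) * yw h β.1) (1 / x) :=
    Pool.Agent.Y37.GF.E_sum (r := 1 / x) Finset.univ (F := fun β : B => ps (M β) * yw h β.1) h0 (fun β _ => by
      have h2 : Pool.Agent.Y37.GF.SR (1 / x) (ps (M β)) := sr_ps _ _
      have h3 : Pool.Agent.Y37.GF.SR (1 / x) (yw h β.1) := ev_ywE hC hh' β.1 hx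
      exact h2.mul h0 h3) hz
  have h4 : cv a ((1 / x : ℝ) : ℂ) * yw (hv h x) b = ((Pool.Agent.Y37.GF.E (ps a * yw h b) (1 / x) : ℝ) : ℂ) :=
    (val_one hC hh' hx a b).symm
  rw [h4, hM, h1, Complex.ofReal_sum]
  exact Finset.sum_congr rfl fun β _ => val_one hC hh' hx (M β) β.1

end Pool.Agent.T44.GL
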